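import Pool.Agent.Lib_helper68.KSLF.POL
import Pool.Agent.Lib_helper68.KSLF.WKC

/-! KSM: the indicator function of `x < V`, weak convergence and polynomials. -/

namespace Pool.Agent.KSL

open Complex MeasureTheory Filter Topology ProbabilityTheory
open scoped ENNReal NNReal

/-- the indicator function of `x < V` -/
noncomputable def jV (V x : ℝ) : ℝ := if V ≤ x then 0 else 1

theorem jV_eq (V x : ℝ) : jV V x = 1 - iV V x := by
  unfold jV iV
  split_ifs <;> norm_num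

theorem jV_mem (V x : ℝ) : 0 ≤ jV V x ∧ jV V x ≤ 1 := by
  unfold jV
  split_ifs <;> constructor <;> norm_num

theorem jV_meas (V : ℝ) : Measurable (jV V) := by
  unfold jV
  exact Measurable.ite measurableSet_Ici measurable_const measurable_const

theorem jV_memLp (V : ℝ) : MemLp (jV V) 2 (gaussianReal 0 1) := by
  refine MemLp.of_bound (jV_meas V).aestronglyMeasurable 1 (ae_of_all _ fun x => ?_)
  rw [Real.norm_eq_abs, abs_of_nonneg (jV_mem V x).1]
  exact (jV_mem V x).2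

/-- a continuous approximation -/
noncomputable def gj (V η x : ℝ) : ℝ := 1 - wkc_g V η x

theorem gj_cont (V η : ℝ) : Continuous (gj V η) := continuous_const.sub (wkc_g_cont V η)

theorem gj_mem (V η x : ℝ) : 0 ≤ gj V η x ∧ gj V η x ≤ 1 := by
  have h := wkc_g_mem V η x
  unfold gj
  constructor <;> linarith [h.1, h.2]

theorem jV_g {V η : ℝ} (hη : 0 < η) (x : ℝ) : |jV V x - gj V η x| ≤ wkc_b V η x := by
  have h := wkc_iV_g (V := V) hη x
  rw [jV_eq]
  unfold gj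
  have h2 : 1 - iV V x - (1 - wkc_g V η x) = -(iV V x - wkc_g V η x) := by ring
  rw [h2, abs_neg]
  exact h

/-- convergence in law with moments -/
theorem weak_poly_j {μ : ℕ → Measure ℝ} [∀ n, IsFiniteMeasure (μ n)] {h : ℝ} (hh : 0 ≤ h)
    (hc : ∀ θ : ℝ, Tendsto (fun n => charFun (μ n) θ) atTop
      (𝓝 ((h * Real.exp (-θ ^ 2 / 2) : ℝ) : ℂ)))
    (hm : ∀ k : ℕ, ∃ C : ℝ, ∀ n, Integrable (fun x => x ^ (2 * k)) (μ n) ∧
      ∫ x, x ^ (2 * k) ∂(μ n) ≤ C) (p : Polynomial ℝ) (V : ℝ) :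
    Tendsto (fun n => ∫ x, |p.eval x ^ 2 - jV V x| ∂(μ n)) atTop
        (𝓝 (h * ∫ x, |p.eval x ^ 2 - jV V x| ∂(gaussianReal 0 1))) ∧
      Tendsto (fun n => ∫ x, p.eval x ∂(μ n)) atTop
        (𝓝 (h * ∫ x, p.eval x ∂(gaussianReal 0 1))) := by
  constructor
  swap
  · obtain ⟨C, k, hC, hb⟩ := wkc_poly_bd p
    exact (wkc_cont hh hc hm p.continuous hC hb).2.2
  obtain ⟨C, k, hC, hb⟩ := wkc_poly_bd (p ^ 2)
  have hb2 : ∀ x, |p.eval x ^ 2| ≤ C * (1 + x ^ (2 * k)) := by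
    intro x
    have := hb x
    rwa [Polynomial.eval_pow] at this
  have hk : ∀ x : ℝ, 0 ≤ x ^ (2 * k) := fun x => by rw [pow_mul]; positivity
  have hb3 : ∀ g : ℝ → ℝ, (∀ x, 0 ≤ g x ∧ g x ≤ 1) → ∀ x,
      |(|p.eval x ^ 2 - g x|)| ≤ (C + 1) * (1 + x ^ (2 * k)) := by
    intro g hg x
    rw [abs_abs]
    have h1 := hb2 x
    have h2 : |g x| ≤ 1 := by
      rw [abs_of_nonneg (hg x).1]
      exact (hg x).2
    calc |p.eval x ^ 2 - g x| ≤ |p.eval x ^ 2| + |g x| := abs_sub _ _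
      _ ≤ (C + 1) * (1 + x ^ (2 * k)) := by nlinarith [hk x]
  have hpint : ∀ (ν : Measure ℝ) [IsFiniteMeasure ν], Integrable (fun x => x ^ (2 * k)) ν →
      Integrable (fun x => |p.eval x ^ 2 - jV V x|) ν := by
    intro ν _ hν
    refine Integrable.mono' (((integrable_const (μ := ν) (1 : ℝ)).add hν).const_mul (C + 1)) ?_
      (ae_of_all _ fun x => ?_)
    · refine Measurable.aestronglyMeasurable ?_
      have h1 := jV_meas V
      have h2 : Measurable (fun x => p.eval x) := p.continuous.measurable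
      exact ((h2.pow_const 2).sub h1).abs
    · rw [Real.norm_eq_abs]
      exact hb3 _ (jV_mem V) x
  rw [Metric.tendsto_atTop]
  intro ε hε
  -- the width of the bump
  obtain ⟨j, hj⟩ : ∃ j : ℕ, (h + 1) * ∫ x, wkc_b V (1 / ((j : ℝ) + 1)) x
      ∂(gaussianReal 0 1) < ε / 4 := by
    have h1 := (wkc_b_tend V).const_mul (h + 1)
    rw [mul_zero] at h1
    have h2 := h1.eventually (gt_mem_nhds (show (0 : ℝ) < ε / 4 by positivity))
    exact h2.exists
  set η : ℝ := 1 / ((j : ℝ) + 1) with hη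
  have hη0 : 0 < η := by positivity
  set J := ∫ x, wkc_b V η x ∂(gaussianReal 0 1) with hJ
  have hJ0 : 0 ≤ J := integral_nonneg fun x => (wkc_b_mem V η x).1
  have hbc := wkc_cont hh hc hm (wkc_b_cont V η) (C := 1) (k := 0) zero_le_one (by
    intro x
    rw [abs_of_nonneg (wkc_b_mem V η x).1]
    have := (wkc_b_mem V η x).2
    simp
    linarith)
  have hgc := wkc_cont hh hc hm (F := fun x => |p.eval x ^ 2 - gj V η x|)
    (((p.continuous.pow 2).sub (gj_cont V η)).abs) (C := C + 1) (k := k) (by positivity)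
    (hb3 _ (gj_mem V η))
  obtain ⟨C0, h0⟩ := hm k
  have hdiff : ∀ (ν : Measure ℝ) [IsFiniteMeasure ν], Integrable (fun x => x ^ (2 * k)) ν →
      Integrable (fun x => |p.eval x ^ 2 - gj V η x|) ν → Integrable (wkc_b V η) ν →
      |∫ x, |p.eval x ^ 2 - jV V x| ∂ν - ∫ x, |p.eval x ^ 2 - gj V η x| ∂ν| ≤
        ∫ x, wkc_b V η x ∂ν := by
    intro ν _ h1 h2 h3
    rw [← integral_sub (hpint ν h1) h2]
    refine abs_integral_le_integral_abs.trans (integral_mono_of_nonneg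
      (ae_of_all _ fun x => abs_nonneg _) h3 (ae_of_all _ fun x => ?_))
    refine (abs_abs_sub_abs_le _ _).trans ?_
    have e : p.eval x ^ 2 - jV V x - (p.eval x ^ 2 - gj V η x) = -(jV V x - gj V η x) := by
      ring
    rw [e, abs_neg]
    exact jV_g hη0 x
  have t1 := hbc.2.2
  have t2 := hgc.2.2
  rw [Metric.tendsto_atTop] at t1 t2
  obtain ⟨N1, hN1⟩ := t1 (ε / 4) (by positivity)
  obtain ⟨N2, hN2⟩ := t2 (ε / 4) (by positivity)
  refine ⟨max N1 N2, fun n hn => ?_⟩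
  have a1 := hN1 n ((le_max_left _ _).trans hn)
  have a2 := hN2 n ((le_max_right _ _).trans hn)
  have a3 := hdiff (μ n) (h0 n).1 (hgc.1 n) (hbc.1 n)
  have a4 := hdiff (gaussianReal 0 1) (wkc_gauss_int _) hgc.2.1 hbc.2.1
  rw [Real.dist_eq] at a1 a2 ⊢
  have a5 : |h * (∫ x, |p.eval x ^ 2 - jV V x| ∂(gaussianReal 0 1) -
      ∫ x, |p.eval x ^ 2 - gj V η x| ∂(gaussianReal 0 1))| ≤ h * J := by
    rw [abs_mul, abs_of_nonneg hh]
    exact mul_le_mul_of_nonneg_left a4 hh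
  have e : ∫ x, |p.eval x ^ 2 - jV V x| ∂(μ n) -
      h * ∫ x, |p.eval x ^ 2 - jV V x| ∂(gaussianReal 0 1) =
      (∫ x, |p.eval x ^ 2 - jV V x| ∂(μ n) - ∫ x, |p.eval x ^ 2 - gj V η x| ∂(μ n)) +
      (∫ x, |p.eval x ^ 2 - gj V η x| ∂(μ n) -
        h * ∫ x, |p.eval x ^ 2 - gj V η x| ∂(gaussianReal 0 1)) -
      h * (∫ x, |p.eval x ^ 2 - jV V x| ∂(gaussianReal 0 1) -
        ∫ x, |p.eval x ^ 2 - gj V η x| ∂(gaussianReal 0 1)) := by ring
  rw [e]
  have a6 := (abs_le.1 a1.le).2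
  have a7 : h * J ≤ (h + 1) * J := by nlinarith
  calc _ ≤ |∫ x, |p.eval x ^ 2 - jV V x| ∂(μ n) -
        ∫ x, |p.eval x ^ 2 - gj V η x| ∂(μ n)| +
      |∫ x, |p.eval x ^ 2 - gj V η x| ∂(μ n) -
        h * ∫ x, |p.eval x ^ 2 - gj V η x| ∂(gaussianReal 0 1)| +
      |h * (∫ x, |p.eval x ^ 2 - jV V x| ∂(gaussianReal 0 1) -
        ∫ x, |p.eval x ^ 2 - gj V η x| ∂(gaussianReal 0 1))| := by
        refine (abs_sub _ _).trans (add_le_add_left (abs_add_le _ _) _)
    _ < ε := by linarith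

/-- polynomials are dense -/
theorem poly_dense_j (V : ℝ) {ε : ℝ} (hε : 0 < ε) : ∃ p : Polynomial ℝ,
    ∫ x, |p.eval x ^ 2 - jV V x| ∂(gaussianReal 0 1) ≤ ε := by
  set δ : ℝ := min 1 (ε / 3) with hδ
  have hδ0 : 0 < δ := by positivity
  have hδ1 : δ ≤ 1 := min_le_left _ _
  have hδ2 : δ ≤ ε / 3 := min_le_right _ _
  have h1 : (jV_memLp V).toLp ∈ (LinearMap.range pol_T).topologicalClosure := by
    rw [pol_dense_top]
    trivial
  rw [← SetLike.mem_coe, Submodule.topologicalClosure_coe, Metric.mem_closure_iff] at h1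
  obtain ⟨_, ⟨p, rfl⟩, hp⟩ := h1 δ hδ0
  refine ⟨p, ?_⟩
  have hmem : MemLp (fun x => p.eval x - jV V x) 2 (gaussianReal 0 1) := (pol_mem p).sub (jV_memLp V)
  have h2 : ∫ x, (p.eval x - jV V x) ^ 2 ∂(gaussianReal 0 1) ≤ δ ^ 2 := by
    have h3 : ‖pol_T p - (jV_memLp V).toLp‖ ≤ δ := by
      rw [← dist_eq_norm, dist_comm]
      exact hp.le
    have h4 : pol_T p - (jV_memLp V).toLp = hmem.toLp := by
      show (pol_mem p).toLp - (jV_memLp V).toLp = _
      rw [← MemLp.toLp_sub]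
      rfl
    rw [h4] at h3
    have h5 : ‖hmem.toLp‖ ^ 2 = ∫ x, (p.eval x - jV V x) ^ 2 ∂(gaussianReal 0 1) := by
      rw [← real_inner_self_eq_norm_sq, L2.inner_def]
      refine integral_congr_ae ?_
      filter_upwards [hmem.coeFn_toLp] with x hx
      rw [hx]
      simp [sq]
    rw [← h5]
    exact pow_le_pow_left₀ (norm_nonneg _) h3 2
  have hsq : Integrable (fun x => (p.eval x - jV V x) ^ 2) (gaussianReal 0 1) := hmem.integrable_sq
  have h6 : ∫ x, |p.eval x ^ 2 - jV V x| ∂(gaussianReal 0 1) ≤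
      ∫ x, ((1 + 1 / δ) * (p.eval x - jV V x) ^ 2 + δ) ∂(gaussianReal 0 1) := by
    refine integral_mono_of_nonneg (ae_of_all _ fun x => abs_nonneg _)
      ((hsq.const_mul _).add (integrable_const δ)) (ae_of_all _ fun x => ?_)
    show |p.eval x ^ 2 - jV V x| ≤ (1 + 1 / δ) * (p.eval x - jV V x) ^ 2 + δ
    have e1 : jV V x ^ 2 = jV V x := by
      unfold jV
      split_ifs <;> norm_num
    have e2 : p.eval x ^ 2 - jV V x =
        (p.eval x - jV V x) * (p.eval x - jV V x + 2 * jV V x) := by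
      linear_combination e1
    rw [e2, abs_mul]
    set u := p.eval x - jV V x with hu
    have e3 : |u + 2 * jV V x| ≤ |u| + 2 := by
      refine (abs_add_le _ _).trans ?_
      have := jV_mem V x
      rw [abs_mul, abs_of_nonneg this.1, abs_two]
      linarith [this.2]
    have e4 : |u| * |u + 2 * jV V x| ≤ |u| * (|u| + 2) :=
      mul_le_mul_of_nonneg_left e3 (abs_nonneg _)
    have e5 : |u| * |u| = u ^ 2 := by rw [← sq, sq_abs]
    have e6 : 2 * |u| ≤ 1 / δ * u ^ 2 + δ := by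
      have h7 : 1 / δ * u ^ 2 + δ - 2 * |u| = (|u| - δ) ^ 2 / δ := by
        rw [← sq_abs u]
        field_simp
        ring
      have h8 : 0 ≤ (|u| - δ) ^ 2 / δ := by positivity
      linarith
    nlinarith
  rw [integral_add (hsq.const_mul _) (integrable_const δ), integral_const_mul] at h6
  have h9 : ∫ _x : ℝ, δ ∂(gaussianReal 0 1) = δ := by simp
  rw [h9] at h6
  have h10 : (1 + 1 / δ) * ∫ x, (p.eval x - jV V x) ^ 2 ∂(gaussianReal 0 1) ≤ (1 + 1 / δ) * δ ^ 2 :=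
    mul_le_mul_of_nonneg_left h2 (by positivity)
  have h11 : (1 + 1 / δ) * δ ^ 2 = δ ^ 2 + δ := by
    field_simp
  nlinarith

end Pool.Agent.KSL
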