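import Pool.Agent.Lib_helper68.KSM.JA
import Pool.Agent.Lib_helper68.KSLF.HWK

/-! KSM: the law of the sum over the primes with weights. -/

namespace Pool.Agent.KSL

open Pool.Agent.LEV Pool.Agent.LVB
open Pool.Agent.FG61 (mu phi cc ff AA Lam)
open Complex MeasureTheory Filter Topology UpperHalfPlane ModularGroup ProbabilityTheory
open scoped MatrixGroups Modular ENNReal ModularForm ComplexConjugate ContDiff

theorem harm_weak_j (A : Finset ℕ) (c : ℕ → ℝ) (hA : ∀ a ∈ A, 1 ≤ a) (hc : ∀ a, 0 ≤ c a)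
    (p : Polynomial ℝ) (V : ℝ) {ε : ℝ} (hε : 0 < ε) : ∃ N₀ : ℕ, ∀ (N : ℕ) [Fact N.Prime],
    N₀ ≤ N → ∀ {ι : Type} [Fintype ι] (f : ι → S2 N), AllNew f →
      ∑ i, om (f i) * (Hd A c (la (f i)) *
        |p.eval (Pn N (la (f i))) ^ 2 - jV V (Pn N (la (f i)))|) ≤
        (∑ a ∈ A, c a) * (∫ x, |p.eval x ^ 2 - jV V x| ∂(gaussianReal 0 1)) + ε := by
  by_contra hcon
  have hc2 : ∀ n : ℕ, ∃ (N : ℕ) (_ : Fact N.Prime), n ≤ N ∧ ∃ (ι : Type) (_ : Fintype ι)
      (f : ι → S2 N), AllNew f ∧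
      (∑ a ∈ A, c a) * (∫ x, |p.eval x ^ 2 - jV V x| ∂(gaussianReal 0 1)) + ε <
      ∑ i, om (f i) * (Hd A c (la (f i)) *
        |p.eval (Pn N (la (f i))) ^ 2 - jV V (Pn N (la (f i)))|) := by
    intro n
    by_contra h1
    apply hcon
    refine ⟨n, fun N hN hn ι hι f hf => ?_⟩
    by_contra h2
    exact h1 ⟨N, hN, hn, ι, hι, f, hf, not_le.1 h2⟩
  choose N hF hN ι hι f hf hlt using hc2
  have hNt : Tendsto N atTop atTop := tendsto_atTop_mono hN tendsto_id
  have hHd : ∀ x, 0 ≤ Hd A c x := by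
    intro x
    unfold Hd
    exact Finset.sum_nonneg fun a _ => mul_nonneg (hc a) (sq_nonneg _)
  have hom : ∀ n i, 0 ≤ om (f n i) := by
    intro n i
    unfold om
    have := FRU_nr_nonneg (f n i)
    have := Real.pi_pos
    positivity
  set w : ∀ n, ι n → ℝ := fun n i => om (f n i) * Hd A c (la (f n i)) with hw
  have hw0 : ∀ n i, 0 ≤ w n i := fun n i => mul_nonneg (hom n i) (hHd _)
  set y : ∀ n, ι n → ℝ := fun n i => Pn (N n) (la (f n i)) with hy
  set μ : ℕ → Measure ℝ := fun n => ∑ i, ENNReal.ofReal (w n i) • Measure.dirac (y n i) with hμ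
  have hμf : ∀ n, IsFiniteMeasure (μ n) := by
    intro n
    have h1 := (HWK_int (w n) (hw0 n) (y n) (fun _ => (1 : ℝ))).1
    rw [integrable_const_iff] at h1
    rcases h1 with h1 | h1
    · exact absurd h1 one_ne_zero
    · exact h1
  set h : ℝ := ∑ a ∈ A, c a with hh
  have hh0 : 0 ≤ h := Finset.sum_nonneg fun a _ => hc a
  have hchar : ∀ θ : ℝ, Tendsto (fun n => charFun (μ n) θ) atTop
      (𝓝 ((h * Real.exp (-θ ^ 2 / 2) : ℝ) : ℂ)) := by
    intro θ
    rw [Metric.tendsto_atTop]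
    intro η hη
    obtain ⟨N₂, h2⟩ := harm_char A c hA hc θ (half_pos hη)
    obtain ⟨n₀, hn₀⟩ := (tendsto_atTop.1 hNt N₂).exists_forall_of_atTop
    refine ⟨n₀, fun n hn => ?_⟩
    have h3 := h2 (N n) (hn₀ n hn) (f n) (hf n)
    rw [dist_eq_norm, charFun_apply_real]
    have h4 : ∫ x, cexp (θ * x * Complex.I) ∂(μ n)
        = ∑ i, ((om (f n i) * Hd A c (la (f n i)) : ℝ) : ℂ) *
          cexp ((θ * Pn (N n) (la (f n i)) : ℝ) * Complex.I) := by
      rw [(HWK_int (w n) (hw0 n) (y n) (fun x : ℝ => cexp (θ * x * Complex.I))).2]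
      refine Finset.sum_congr rfl fun i _ => ?_
      rw [Complex.real_smul, hw, hy]
      simp only
      rw [Complex.ofReal_mul θ]
    rw [h4]
    exact lt_of_le_of_lt h3 (half_lt_self hη)
  have hmom : ∀ k : ℕ, ∃ C : ℝ, ∀ n, Integrable (fun x => x ^ (2 * k)) (μ n) ∧
      ∫ x, x ^ (2 * k) ∂(μ n) ≤ C := by
    intro k
    obtain ⟨C, N₂, h2⟩ := HWK_mom (2 * k)
    obtain ⟨N₃, h3⟩ := harm_mom A c hA (2 * k) (zero_lt_one)
    obtain ⟨n₀, hn₀⟩ := (tendsto_atTop.1 hNt (max N₂ N₃)).exists_forall_of_atTop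
    have h7 : ∀ n, ∫ x, x ^ (2 * k) ∂(μ n) = ∑ i, om (f n i) *
        (Hd A c (la (f n i)) * Pn (N n) (la (f n i)) ^ (2 * k)) := by
      intro n
      rw [(HWK_int (w n) (hw0 n) (y n) (fun x : ℝ => x ^ (2 * k))).2]
      refine Finset.sum_congr rfl fun i _ => ?_
      rw [smul_eq_mul, mul_assoc]
    refine ⟨h * |C| + 1 + ∑ n ∈ Finset.range n₀, |∫ x, x ^ (2 * k) ∂(μ n)|, fun n => ⟨?_, ?_⟩⟩
    · exact (HWK_int (w n) (hw0 n) (y n) (fun x : ℝ => x ^ (2 * k))).1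
    · by_cases hn : n < n₀
      · have h8 : |∫ x, x ^ (2 * k) ∂(μ n)|
            ≤ ∑ n ∈ Finset.range n₀, |∫ x, x ^ (2 * k) ∂(μ n)| :=
          Finset.single_le_sum (f := fun n => |∫ x, x ^ (2 * k) ∂(μ n)|)
            (fun _ _ => abs_nonneg _) (Finset.mem_range.2 hn)
        have h9 := le_abs_self (∫ x, x ^ (2 * k) ∂(μ n))
        have h10 : 0 ≤ h * |C| := mul_nonneg hh0 (abs_nonneg C)
        linarith
      · have hnn := hn₀ n (not_lt.1 hn)
        have hIp : ∀ q ∈ IN (N n), q.Prime := by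
          intro q hq
          unfold IN at hq
          exact (Finset.mem_filter.1 hq).2.1
        obtain ⟨P, hP⟩ := st_exists (IN (N n)) hIp
        have h8 := h2 (N n) (le_trans (le_max_left _ _) hnn) P hP
        have h9 := h3 (N n) (le_trans (le_max_right _ _) hnn) (f n) (hf n) P hP
        rw [← h7] at h9
        have h10 : ∫ x, Pn (N n) x ^ (2 * k) ∂P = ∫ x, |Pn (N n) x| ^ (2 * k) ∂P := by
          refine integral_congr_ae (ae_of_all _ fun x => ?_)
          simp only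
          rw [Even.pow_abs ⟨k, by ring⟩]
        rw [h10] at h9
        have h11 := (abs_le.1 h9).2
        have h12 : h * ∫ x, |Pn (N n) x| ^ (2 * k) ∂P ≤ h * |C| :=
          mul_le_mul_of_nonneg_left (h8.trans (le_abs_self C)) hh0
        have h13 : 0 ≤ ∑ n ∈ Finset.range n₀, |∫ x, x ^ (2 * k) ∂(μ n)| :=
          Finset.sum_nonneg fun _ _ => abs_nonneg _
        linarith
  have hfin := (weak_poly_j (μ := μ) hh0 hchar hmom p V).1
  rw [Metric.tendsto_atTop] at hfin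
  obtain ⟨n, hn⟩ := hfin ε hε
  have h5 := hn n le_rfl
  rw [Real.dist_eq, (HWK_int (w n) (hw0 n) (y n) (fun x : ℝ => |p.eval x ^ 2 - jV V x|)).2] at h5
  have h6 := (abs_lt.1 h5).2
  have h8 : ∑ i, w n i • |p.eval (y n i) ^ 2 - jV V (y n i)| = ∑ i, om (f n i) * (Hd A c (la (f n i)) *
        |p.eval (Pn (N n) (la (f n i))) ^ 2 - jV V (Pn (N n) (la (f n i)))|) := by
    refine Finset.sum_congr rfl fun i _ => ?_
    rw [smul_eq_mul, mul_assoc]
  rw [h8] at h6
  linarith [hlt n]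

end Pool.Agent.KSL
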