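import Pool.Agent.Lib_helper68.KSM.JB
import Pool.Agent.Lib_helper68.KSLF.SCH

/-! KSM: the choice of the small factor. -/

namespace Pool.Agent.KSL

open Pool.Agent.LEV Pool.Agent.LVB
open Pool.Agent.FG61 (mu phi cc ff AA Lam)
open Complex MeasureTheory Filter Topology UpperHalfPlane ModularGroup ProbabilityTheory
open scoped MatrixGroups Modular ENNReal ModularForm ComplexConjugate ContDiff

theorem sch_gauss_j (p : Polynomial ℝ) (V : ℝ) :
    |(∫ x, (p ^ 2).eval x ∂(gaussianReal 0 1)) - (gaussianReal 0 1).real (Set.Iio V)| ≤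
      ∫ x, |p.eval x ^ 2 - jV V x| ∂(gaussianReal 0 1) := by
  have h1 : ∀ x, jV V x = (Set.Iio V).indicator (fun _ => (1 : ℝ)) x := by
    intro x
    unfold jV
    by_cases h : V ≤ x
    · rw [if_pos h, Set.indicator_of_notMem (fun hh => absurd (Set.mem_Iio.mp hh) (not_lt.2 h))]
    · rw [if_neg h, Set.indicator_of_mem (Set.mem_Iio.mpr (not_le.1 h))]
  have h2 : Integrable (jV V) (gaussianReal 0 1) := by
    have : jV V = (Set.Iio V).indicator (fun _ => (1 : ℝ)) := funext h1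
    rw [this]
    exact (integrable_const 1).indicator measurableSet_Iio
  have h3 : ∫ x, jV V x ∂(gaussianReal 0 1) = (gaussianReal 0 1).real (Set.Iio V) := by
    simp_rw [h1]
    rw [integral_indicator measurableSet_Iio, setIntegral_const, smul_eq_mul, mul_one]
  rw [← h3, ← integral_sub (sch_poly_int _) h2]
  refine (abs_integral_le_integral_abs).trans (le_of_eq ?_)
  refine integral_congr_ae (Eventually.of_forall (fun x => ?_))
  simp only [Polynomial.eval_pow]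

theorem s_choice_j (A : Finset ℕ) (c : ℕ → ℝ) (hA : ∀ a ∈ A, 1 ≤ a) (hc : ∀ a, 0 ≤ c a) (V : ℝ)
    {ε : ℝ} (hε : 0 < ε) : ∃ C₄ : ℝ, ∀ ε₂ : ℝ, 0 < ε₂ → ∃ N₀ : ℕ, ∀ (N : ℕ) [Fact N.Prime],
    N₀ ≤ N → ∃ s : ℕ → ℝ, (∀ m, s m ≠ 0 → 1 ≤ m ∧ m ≤ KA (ε₂ / 4) N ∧ m.primeFactors ⊆ IZ N) ∧
      (∀ P : Measure (ℕ → ℝ), IsST (IZ N) P →
        ∫ x, (∑ m ∈ Finset.Icc 1 (KA ε₂ N), s m * Um m x) ^ 4 ∂P ≤ C₄) ∧
      |∑ m ∈ Finset.Icc 1 (KA ε₂ N), s m ^ 2 -
        (∑ a ∈ A, c a) * (gaussianReal 0 1).real (Set.Iio V)| ≤ ε ∧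
      ∀ {ι : Type} [Fintype ι] (f : ι → S2 N), AllNew f →
        ∑ i, om (f i) * |(∑ m ∈ Finset.Icc 1 (KA ε₂ N), s m * Um m (la (f i))) ^ 2 -
          Hd A c (la (f i)) * jV V (Pn N (la (f i)))| ≤ ε := by
  classical
  set C : ℝ := ∑ a ∈ A, c a with hC
  have hC0 : 0 ≤ C := Finset.sum_nonneg (fun a _ => hc a)
  set gV : ℝ := (gaussianReal 0 1).real (Set.Iio V) with hgV
  have hgV0 : 0 ≤ gV := measureReal_nonneg
  have hgV1 : gV ≤ 1 := by
    have := measureReal_le_one (μ := gaussianReal 0 1) (s := Set.Iio V)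
    exact this
  set η₁ : ℝ := ε / (8 * (C + 1)) with hη₁
  have hη₁0 : 0 < η₁ := by positivity
  have hη₁C : η₁ * (C + 1) = ε / 8 := by
    rw [hη₁]
    field_simp
  obtain ⟨p, hp⟩ := poly_dense_j V hη₁0
  set M4 : ℝ := (∫ x, (p ^ 4).eval x ∂(gaussianReal 0 1)) + 1 with hM4
  have hM4i : 0 ≤ ∫ x, (p ^ 4).eval x ∂(gaussianReal 0 1) := by
    refine integral_nonneg (fun x => ?_)
    simp only [Polynomial.eval_pow, Pi.zero_apply]
    positivity
  have hM41 : 1 ≤ M4 := by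
    rw [hM4]
    linarith
  set t : ℝ := ε / (8 * M4) with ht
  have ht0 : 0 < t := by positivity
  have htM : t * M4 = ε / 8 := by
    rw [ht]
    field_simp
  set τ : ℝ := min (ε / 4) 1 with hτ
  have hτ0 : 0 < τ := lt_min (by linarith) one_pos
  set η₂ : ℝ := min (t * ε / 8) (τ ^ 2) with hη₂
  have hη₂0 : 0 < η₂ := lt_min (by positivity) (by positivity)
  obtain ⟨I, X, R, hI, hAI, hR, hRP⟩ := root_poly A c hA hc hη₂0
  -- constants of the model
  have hR2 := sch_sq hI hR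
  have hR4 := sch_sq hI hR2
  obtain ⟨r4, hr4⟩ := sch_const hR4
  have hHd := sch_hd c hI hA hAI
  set Y : ℕ := X * X + ∑ a ∈ A, a * a with hY
  have hD : HPoly I Y (fun x => R x ^ 2 - Hd A c x) := by
    have h1 := hpoly_add (hpoly_mono (Nat.le_add_right (X * X) (∑ a ∈ A, a * a)) hR2)
      (hpoly_smul (hpoly_mono (Nat.le_add_left (∑ a ∈ A, a * a) (X * X)) hHd) (-1))
    obtain ⟨d, hd, hdx⟩ := h1
    refine ⟨d, hd, fun x => ?_⟩
    rw [← hdx x]
    ring
  have hD2 := sch_sq hI hD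
  refine ⟨M4 * |r4|, fun ε₂ h2 => ?_⟩
  -- large N
  obtain ⟨N₁, hN₁⟩ := sch_ll (∑ q ∈ I, (q : ℝ))
  obtain ⟨N₂, hN₂⟩ := iz_split
  obtain ⟨N₃, hN₃⟩ := sch_ka (a := ε₂ / 8) (b := ε₂ / 4) (by linarith) (by linarith) X
  obtain ⟨N₄, hN₄⟩ := pn_hpoly p (ε₂ := ε₂ / 8) (by linarith)
  obtain ⟨N₅, hN₅⟩ := pn_hpoly (p ^ 2) (ε₂ := 1 / 2) (by norm_num)
  obtain ⟨N₆, hN₆⟩ := pn_hpoly (p ^ 4) (ε₂ := 1 / 2) (by norm_num)
  obtain ⟨N₇, hN₇⟩ := pn_poly (p ^ 2) hη₁0
  obtain ⟨N₈, hN₈⟩ := pn_poly (p ^ 4) one_pos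
  obtain ⟨N₉, hN₉⟩ := sch_transfer (fun N => KA (1 / 2) N) ⟨0, fun N _ => le_refl _⟩
  obtain ⟨N₁₀, hN₁₀⟩ := sch_transfer (fun _ => Y) (by
    obtain ⟨N₀, hN₀⟩ := sch_ka (a := 1 / 4) (b := 1 / 2) (by norm_num) (by norm_num) Y
    refine ⟨N₀ + 1, fun N hN => ?_⟩
    have h3 := hN₀ N (by omega)
    have h4 : 1 ≤ KA (1 / 4) N := by
      unfold KA
      refine Nat.le_floor ?_
      push_cast
      have : (1 : ℝ) ≤ N := by
        have : 1 ≤ N := by omega
        exact_mod_cast this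
      exact Real.one_le_rpow this (by norm_num)
    calc Y = 1 * Y := (one_mul Y).symm
      _ ≤ KA (1 / 4) N * Y := Nat.mul_le_mul_right Y h4
      _ ≤ KA (1 / 2) N := h3)
  obtain ⟨N₁₁, hN₁₁⟩ := harm_weak_j A c hA hc p V (show 0 < ε / 8 by linarith)
  refine ⟨N₁ + N₂ + N₃ + N₄ + N₅ + N₆ + N₇ + N₈ + N₉ + N₁₀ + N₁₁ + 1, fun N _ hN => ?_⟩
  have hiz := hN₂ N (by omega)
  have hIZp : ∀ q ∈ IZ N, q.Prime := fun q hq => (hiz.2.2.1 q hq).1
  have hII0 : I ⊆ I0 N := by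
    intro q hq
    have h3 : (q : ℝ) ≤ Real.log (Real.log N) :=
      (Finset.single_le_sum (f := fun q : ℕ => (q : ℝ)) (fun _ _ => Nat.cast_nonneg _) hq).trans
        (hN₁ N (by omega))
    unfold I0
    rw [Finset.mem_filter, Finset.mem_Icc]
    exact ⟨⟨(hI q hq).one_le, Nat.le_floor h3⟩, hI q hq⟩
  have hI0IZ : I0 N ⊆ IZ N := by
    rw [hiz.1]
    exact Finset.subset_union_left
  have hINIZ : IN N ⊆ IZ N := by
    rw [hiz.1]
    exact Finset.subset_union_right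
  have hIIZ : I ⊆ IZ N := hII0.trans hI0IZ
  have hINp : ∀ q ∈ IN N, q.Prime := fun q hq => hIZp q (hINIZ hq)
  have hdis : Disjoint (IN N) I := (Finset.disjoint_of_subset_left hII0 hiz.2.1).symm
  have hN1 : 1 ≤ N := by omega
  have hG1 := hN₄ N (by omega)
  have hG2 := hN₅ N (by omega)
  have hG4 := hN₆ N (by omega)
  -- the polynomial
  obtain ⟨s, hs, hsx⟩ := hpoly_mul hINp hI hG1 hR
  have hss : ∀ m, s m ≠ 0 → 1 ≤ m ∧ m ≤ KA (ε₂ / 4) N ∧ m.primeFactors ⊆ IZ N := by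
    intro m hm
    obtain ⟨a1, a2, a3⟩ := hs m hm
    exact ⟨a1, a2.trans (hN₃ N (by omega)), a3.trans (Finset.union_subset hINIZ hIIZ)⟩
  have hka : KA (ε₂ / 4) N ≤ KA ε₂ N := sch_ka_mono (by linarith) hN1
  have hSx : ∀ x, ∑ m ∈ Finset.Icc 1 (KA ε₂ N), s m * Um m x = p.eval (Pn N x) * R x := by
    intro x
    have h0 : p.eval (Pn N x) * R x = ∑ m ∈ Finset.Icc 1 (KA (ε₂ / 8) N * X), s m * Um m x := hsx x
    rw [h0]
    symm
    refine Finset.sum_subset (Finset.Icc_subset_Icc_right ((hN₃ N (by omega)).trans hka)) ?_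
    intro m _ hm
    by_cases h0 : s m = 0
    · rw [h0, zero_mul]
    · exact absurd (Finset.mem_Icc.mpr ⟨(hs m h0).1, (hs m h0).2.1⟩) hm
  -- moments in the model
  have hp4 : ∀ P : Measure (ℕ → ℝ), IsST (IN N) P → ∫ x, (p ^ 4).eval (Pn N x) ∂P ≤ M4 := by
    intro P hP
    have h3 := (hN₈ N (by omega) P hP).2
    have h4 := (abs_le.mp h3).2
    rw [hM4]
    linarith
  have hp2 : ∀ P : Measure (ℕ → ℝ), IsST (IN N) P →
      |(∫ x, (p ^ 2).eval (Pn N x) ∂P) - gV| ≤ 2 * η₁ := by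
    intro P hP
    have h3 := (hN₇ N (by omega) P hP).2
    have h4 := (sch_gauss_j p V).trans hp
    have h5 : (∫ x, (p ^ 2).eval (Pn N x) ∂P) - gV =
        ((∫ x, (p ^ 2).eval (Pn N x) ∂P) - ∫ x, (p ^ 2).eval x ∂(gaussianReal 0 1)) +
        ((∫ x, (p ^ 2).eval x ∂(gaussianReal 0 1)) - gV) := by ring
    rw [h5]
    refine (abs_add_le _ _).trans ?_
    linarith
  refine ⟨s, hss, ?_, ?_, ?_⟩
  · intro P hP
    have hPIN : IsST (IN N) P := st_sub hINIZ hP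
    have h3 : ∀ x, (∑ m ∈ Finset.Icc 1 (KA ε₂ N), s m * Um m x) ^ 4 =
        (p ^ 4).eval (Pn N x) * (R x ^ 2) ^ 2 := by
      intro x
      rw [hSx, Polynomial.eval_pow]
      ring
    simp_rw [h3]
    rw [sch_indep hIZp hINIZ hIIZ hdis hP hG4 hR4, hr4 (IZ N) hIZp hIIZ P hP]
    have h4 : 0 ≤ ∫ x, (p ^ 4).eval (Pn N x) ∂P := by
      refine integral_nonneg (fun x => ?_)
      simp only [Polynomial.eval_pow, Pi.zero_apply]
      positivity
    calc (∫ x, (p ^ 4).eval (Pn N x) ∂P) * r4 ≤ (∫ x, (p ^ 4).eval (Pn N x) ∂P) * |r4| :=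
          mul_le_mul_of_nonneg_left (le_abs_self _) h4
      _ ≤ M4 * |r4| := mul_le_mul_of_nonneg_right (hp4 P hPIN) (abs_nonneg _)
  · obtain ⟨P, hP⟩ := st_exists (IZ N) hIZp
    have hprob := hP.prob
    have hPIN : IsST (IN N) P := st_sub hINIZ hP
    have hPI : IsST I P := st_sub hIIZ hP
    have h3 := st_sq hIZp hP (X := KA ε₂ N) (c := s) (fun m hm =>
      ⟨(hss m hm).1, (hss m hm).2.1.trans hka, (hss m hm).2.2⟩)
    rw [← h3]
    have h4 : ∀ x, (∑ m ∈ Finset.Icc 1 (KA ε₂ N), s m * Um m x) ^ 2 =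
        (p ^ 2).eval (Pn N x) * R x ^ 2 := by
      intro x
      rw [hSx, Polynomial.eval_pow]
      ring
    simp_rw [h4]
    rw [sch_indep hIZp hINIZ hIIZ hdis hP hG2 hR2]
    set m2 : ℝ := ∫ x, (p ^ 2).eval (Pn N x) ∂P with hm2
    set r2 : ℝ := ∫ x, R x ^ 2 ∂P with hr2
    have h5 : |m2 - gV| ≤ 2 * η₁ := hp2 P hPIN
    have h6 : |r2 - C| ≤ τ := by
      have hi1 : Integrable (fun x => R x ^ 2) P := sch_int hIIZ hP hR2
      have hi2 : Integrable (Hd A c) P := sch_int hIIZ hP hHd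
      have hi3 : Integrable (fun x => (R x ^ 2 - Hd A c x) ^ 2) P := sch_int hIIZ hP hD2
      have h7 : ∫ x, Hd A c x ∂P = C :=
        sch_hd_mean c hIZp hA (fun a ha => (hAI a ha).trans hIIZ) hP
      have h8 : r2 - C = ∫ x, (R x ^ 2 - Hd A c x) ∂P := by
        rw [integral_sub hi1 hi2, h7]
      rw [h8]
      refine abs_integral_le_integral_abs.trans ?_
      have h9 : ∫ x, |R x ^ 2 - Hd A c x| ∂P ≤
          ∫ x, (τ / 2 + (R x ^ 2 - Hd A c x) ^ 2 / (2 * τ)) ∂P := by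
        refine integral_mono (hi1.sub hi2).abs ((integrable_const _).add (hi3.div_const _)) ?_
        intro x
        simp only
        have h10 : 0 ≤ (|R x ^ 2 - Hd A c x| - τ) ^ 2 := sq_nonneg _
        have h11 : |R x ^ 2 - Hd A c x| ^ 2 = (R x ^ 2 - Hd A c x) ^ 2 := sq_abs _
        have h12 : 2 * τ * |R x ^ 2 - Hd A c x| ≤ τ ^ 2 + (R x ^ 2 - Hd A c x) ^ 2 := by
          nlinarith [h10, h11]
        have h13 : τ / 2 + (R x ^ 2 - Hd A c x) ^ 2 / (2 * τ) =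
            (τ ^ 2 + (R x ^ 2 - Hd A c x) ^ 2) / (2 * τ) := by
          field_simp
        rw [h13, le_div_iff₀ (by positivity)]
        linarith
      refine h9.trans ?_
      rw [integral_add (integrable_const _) (hi3.div_const _), integral_const, integral_div]
      have h14 : ∫ x, (R x ^ 2 - Hd A c x) ^ 2 ∂P ≤ τ ^ 2 := (hRP P hPI).trans (min_le_right _ _)
      have h15 : (∫ x, (R x ^ 2 - Hd A c x) ^ 2 ∂P) / (2 * τ) ≤ τ / 2 := by
        rw [div_le_iff₀ (by positivity)]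
        nlinarith
      have h16 : P.real Set.univ = 1 := by
        simp
      rw [h16, one_smul]
      linarith
    have hτ1 : τ ≤ 1 := min_le_right _ _
    have hτ4 : τ ≤ ε / 4 := min_le_left _ _
    have h17 : |r2| ≤ C + 1 := by
      have h18 : r2 = (r2 - C) + C := by ring
      rw [h18]
      refine (abs_add_le _ _).trans ?_
      rw [abs_of_nonneg hC0]
      linarith
    have h19 : m2 * r2 - C * gV = (m2 - gV) * r2 + gV * (r2 - C) := by ring
    rw [h19]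
    refine (abs_add_le _ _).trans ?_
    rw [abs_mul, abs_mul, abs_of_nonneg hgV0]
    have h20 : |m2 - gV| * |r2| ≤ 2 * η₁ * (C + 1) :=
      mul_le_mul h5 h17 (abs_nonneg _) (by positivity)
    have h21 : gV * |r2 - C| ≤ 1 * τ := mul_le_mul hgV1 h6 (abs_nonneg _) (by norm_num)
    nlinarith
  · intro ι _ f hf
    obtain ⟨P, hP⟩ := st_exists (IN N) hINp
    obtain ⟨P', hP'⟩ := st_exists I hI
    have h3 := hN₉ N (by omega) f hf (fun q hq => ⟨hINp q hq, (hiz.2.2.1 q (hINIZ hq)).2⟩) hP hG2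
    have h4 := hN₁₀ N (by omega) f hf
      (fun q hq => ⟨hI q hq, (hiz.2.2.1 q (hIIZ hq)).2⟩) hP' hD
    have h5 := hN₁₁ N (by omega) f hf
    have h6 : ∫ x, ((p ^ 2).eval (Pn N x)) ^ 2 ∂P ≤ M4 := by
      have h7 : ∀ x, ((p ^ 2).eval (Pn N x)) ^ 2 = (p ^ 4).eval (Pn N x) := by
        intro x
        rw [Polynomial.eval_pow, Polynomial.eval_pow]
        ring
      simp_rw [h7]
      exact hp4 P hP
    have h8 : ∫ x, (R x ^ 2 - Hd A c x) ^ 2 ∂P' ≤ t * ε / 8 := (hRP P' hP').trans (min_le_left _ _)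
    have hterm : ∀ i, om (f i) * |(∑ m ∈ Finset.Icc 1 (KA ε₂ N), s m * Um m (la (f i))) ^ 2 -
          Hd A c (la (f i)) * jV V (Pn N (la (f i)))| ≤
        (t / 2) * (om (f i) * ((p ^ 2).eval (Pn N (la (f i)))) ^ 2) +
        (1 / (2 * t)) * (om (f i) * (R (la (f i)) ^ 2 - Hd A c (la (f i))) ^ 2) +
        om (f i) * (Hd A c (la (f i)) *
          |p.eval (Pn N (la (f i))) ^ 2 - jV V (Pn N (la (f i)))|) := by
      intro i
      have ho := sch_om (f i)
      rw [hSx]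
      set y := la (f i) with hy
      set a := p.eval (Pn N y) ^ 2 with ha
      set b := R y ^ 2 - Hd A c y with hb
      have hH0 : 0 ≤ Hd A c y := by
        unfold Hd
        exact Finset.sum_nonneg (fun k _ => mul_nonneg (hc k) (by positivity))
      have ha0 : 0 ≤ a := by
        rw [ha]
        positivity
      have h9 : (p.eval (Pn N y) * R y) ^ 2 - Hd A c y * jV V (Pn N y) =
          a * b + Hd A c y * (a - jV V (Pn N y)) := by
        rw [ha, hb]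
        ring
      have h10 : |(p.eval (Pn N y) * R y) ^ 2 - Hd A c y * jV V (Pn N y)| ≤
          a * |b| + Hd A c y * |a - jV V (Pn N y)| := by
        rw [h9]
        refine (abs_add_le _ _).trans ?_
        rw [abs_mul, abs_mul, abs_of_nonneg ha0, abs_of_nonneg hH0]
      have h11 : a * |b| ≤ (t / 2) * a ^ 2 + (1 / (2 * t)) * b ^ 2 := by
        have h12 : 0 ≤ (t * a - |b|) ^ 2 := sq_nonneg _
        have h13 : |b| ^ 2 = b ^ 2 := sq_abs b
        have h14 : (t / 2) * a ^ 2 + (1 / (2 * t)) * b ^ 2 = (t ^ 2 * a ^ 2 + b ^ 2) / (2 * t) := by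
          field_simp
        rw [h14, le_div_iff₀ (by positivity)]
        nlinarith
      have h15 : (p ^ 2).eval (Pn N y) = a := by
        rw [Polynomial.eval_pow]
      rw [h15]
      calc om (f i) * |(p.eval (Pn N y) * R y) ^ 2 - Hd A c y * jV V (Pn N y)| ≤
            om (f i) * (((t / 2) * a ^ 2 + (1 / (2 * t)) * b ^ 2) +
              Hd A c y * |a - jV V (Pn N y)|) :=
            mul_le_mul_of_nonneg_left (by linarith) ho
        _ = _ := by ring
    refine (Finset.sum_le_sum (fun i _ => hterm i)).trans ?_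
    rw [Finset.sum_add_distrib, Finset.sum_add_distrib, ← Finset.mul_sum, ← Finset.mul_sum]
    have h16 : (t / 2) * ∑ i, om (f i) * ((p ^ 2).eval (Pn N (la (f i)))) ^ 2 ≤ ε / 8 := by
      have h17 : ∑ i, om (f i) * ((p ^ 2).eval (Pn N (la (f i)))) ^ 2 ≤ 2 * M4 :=
        h3.trans (by linarith)
      calc (t / 2) * ∑ i, om (f i) * ((p ^ 2).eval (Pn N (la (f i)))) ^ 2 ≤
            (t / 2) * (2 * M4) := mul_le_mul_of_nonneg_left h17 (by positivity)
        _ = ε / 8 := by rw [← htM]; ring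
    have h18 : (1 / (2 * t)) * ∑ i, om (f i) * (R (la (f i)) ^ 2 - Hd A c (la (f i))) ^ 2 ≤
        ε / 8 := by
      have h19 : ∑ i, om (f i) * (R (la (f i)) ^ 2 - Hd A c (la (f i))) ^ 2 ≤ 2 * (t * ε / 8) :=
        h4.trans (by linarith)
      calc (1 / (2 * t)) * ∑ i, om (f i) * (R (la (f i)) ^ 2 - Hd A c (la (f i))) ^ 2 ≤
            (1 / (2 * t)) * (2 * (t * ε / 8)) := mul_le_mul_of_nonneg_left h19 (by positivity)
        _ = ε / 8 := by field_simp
    have h20 : C * (∫ x, |p.eval x ^ 2 - jV V x| ∂(gaussianReal 0 1)) ≤ ε / 8 := by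
      calc C * (∫ x, |p.eval x ^ 2 - jV V x| ∂(gaussianReal 0 1)) ≤ C * η₁ :=
            mul_le_mul_of_nonneg_left hp hC0
        _ ≤ η₁ * (C + 1) := by nlinarith
        _ = ε / 8 := hη₁C
    linarith

end Pool.Agent.KSL
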