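import Pool.Agent.Lib_helper68.KSM.JC
import Pool.Agent.Lib_helper68.KSLF.FIB

/-! KSM: the mollified central values. -/

namespace Pool.Agent.KSL

open Pool.Agent.LEV Pool.Agent.LVB
open Complex MeasureTheory Filter Topology UpperHalfPlane ModularGroup ProbabilityTheory
open scoped MatrixGroups Modular ENNReal ModularForm ComplexConjugate ContDiff

theorem moll_half_j (A : Finset ℕ) (c : ℕ → ℝ) (hA : ∀ a ∈ A, 1 ≤ a) (hc : ∀ a, 0 ≤ c a) (V : ℝ)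
    {ε : ℝ} (hε : 0 < ε) : ∃ (A₁ : ℕ) (κ δ ε₂ C₄ : ℝ) (N₀ : ℕ), 1 ≤ A₁ ∧ 0 < κ ∧ 0 < δ ∧
    δ < 1 / 4 ∧ 0 < ε₂ ∧ ε₂ ≤ 1 / 8 ∧ ∀ (N : ℕ) [Fact N.Prime], N₀ ≤ N → ∀ {ι : Type}
    [Fintype ι] (f : ι → S2 N), AllNew f → ∃ (s : ℕ → ℝ) (G : Finset ι),
      (∀ m, s m ≠ 0 → 1 ≤ m ∧ m ≤ KA (ε₂ / 4) N ∧ m.primeFactors ⊆ IZ N) ∧
      (∀ P : Measure (ℕ → ℝ), IsST (IZ N) P →
        ∫ x, (∑ m ∈ Finset.Icc 1 (KA ε₂ N), s m * Um m x) ^ 4 ∂P ≤ C₄) ∧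
      (∑ i, om (f i) * |(∑ m ∈ Finset.Icc 1 (KA ε₂ N), s m * Um m (la (f i))) ^ 2 -
          Hd A c (la (f i)) * jV V (Pn N (la (f i)))| ≤ ε) ∧
      (∀ i ∈ G, co (f i) N = 1 ∧ κ ≤ ‖Lh (f i)‖ * |Bz A₁ N (la (f i))| *
        |Mr (zz N) (MM δ N) 2 (la (f i))|) ∧
      1 / 4 * ((∑ a ∈ A, c a) * (gaussianReal 0 1).real (Set.Iio V)) - ε ≤
        ∑ i ∈ G, om (f i) * (∑ m ∈ Finset.Icc 1 (KA ε₂ N), s m * Um m (la (f i))) ^ 2 := by
  classical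
  obtain ⟨A₁, hA₁, hsp⟩ := sp_mult
  set h₀ : ℝ := ∑ a ∈ A, c a with hh₀
  have hh0 : 0 ≤ h₀ := Finset.sum_nonneg fun a _ => hc a
  set P₀ : ℝ := (gaussianReal 0 1).real (Set.Iio V) with hP₀
  have hP0 : 0 ≤ P₀ := measureReal_nonneg
  have hP1 : P₀ ≤ 1 := measureReal_le_one
  set ε' : ℝ := min ε 1 / 4 with hε'
  have hε0 : 0 < ε' := by positivity
  have hεε : ε' ≤ ε / 4 := by
    have := min_le_left ε 1
    rw [hε']; linarith
  have hε1 : ε' ≤ 1 / 4 := by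
    have := min_le_right ε 1
    rw [hε']; linarith
  obtain ⟨C₄, hsc⟩ := s_choice_j A c hA hc V hε0
  set B : ℝ := h₀ + 1 with hB
  have hB1 : 1 ≤ B := by linarith
  set e : ℝ := (ε' / (400 * B)) ^ 2 with he
  have he0 : 0 < e := by positivity
  have hse : Real.sqrt e = ε' / (400 * B) := by
    rw [he]
    exact Real.sqrt_sq (by positivity)
  set δ : ℝ := min (1 / 8) (ε' / (200 * B)) with hδ
  have hδ0 : 0 < δ := lt_min (by norm_num) (by positivity)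
  have hδ1 : δ ≤ 1 / 8 := min_le_left _ _
  have hδ2 : δ ≤ ε' / (200 * B) := min_le_right _ _
  have hδ4 : δ < 1 / 4 := by linarith
  set κ : ℝ := ε' / (16 * B) with hκ
  have hκ0 : 0 < κ := by positivity
  set C₀ : ℝ := (Real.sqrt B + 1) ^ 2 with hC₀
  obtain ⟨ε₁, κ₁, hε₁, hκ₁, hsec⟩ := second_moment hδ0 hδ4 he0 C₀
  obtain ⟨ε₁', κ₂, hε₁', hκ₂, hfir⟩ := first_moment hδ0 hδ4 he0 C₀ C₄
  set e₂ : ℝ := min (min κ₁ κ₂) e with he₂
  have he₂0 : 0 < e₂ := lt_min (lt_min hκ₁ hκ₂) he0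
  set ε₂ : ℝ := min (min ε₁ ε₁') δ with hε₂
  have hε₂0 : 0 < ε₂ := lt_min (lt_min hε₁ hε₁') hδ0
  have hε₂1 : ε₂ ≤ ε₁ := (min_le_left _ _).trans (min_le_left _ _)
  have hε₂2 : ε₂ ≤ ε₁' := (min_le_left _ _).trans (min_le_right _ _)
  have hε₂3 : ε₂ ≤ δ := min_le_right _ _
  obtain ⟨N₁, hN₁⟩ := hsc ε₂ hε₂0
  obtain ⟨N₂, hN₂⟩ := hsp ε₂ e₂ C₄ hε₂0 he₂0
  obtain ⟨N₃, hN₃⟩ := hsec ε₂ hε₂0 hε₂1
  obtain ⟨N₄, hN₄⟩ := hfir ε₂ hε₂0 hε₂2
  obtain ⟨N₅, hN₅⟩ := fib_ka hε₂0 (by linarith)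
  obtain ⟨N₆, hN₆⟩ := fib_qq hδ0 hε₂3
  obtain ⟨N₇, hN₇⟩ := iz_split
  refine ⟨A₁, κ, δ, ε₂, C₄, N₁ + N₂ + N₃ + N₄ + N₅ + N₆ + N₇, hA₁, hκ0, hδ0, hδ4, hε₂0,
    hε₂3.trans hδ1, ?_⟩
  intro N _ hN ι _ f hf
  obtain ⟨s, hs1, hs2, hs3, hs4⟩ := hN₁ N (by omega)
  obtain ⟨hka1, hka2, hka3, hka4⟩ := hN₅ N (by omega)
  have hQN := hN₆ N (by omega)
  obtain ⟨-, -, hIZ, -, -⟩ := hN₇ N (by omega)
  have hi : Function.Injective f := hf.1
  have hn : ∀ i, IsNew (f i) := fun i => (hf.2 (f i)).mpr ⟨i, rfl⟩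
  obtain ⟨P, hP⟩ := st_exists (IZ N) (fun p hp => (hIZ p hp).1)
  obtain ⟨a, ha1, ha2, ha3, ha4⟩ := hN₂ N (by omega) s hs1 P hP (hs2 P hP)
  have hs1' : ∀ m, s m ≠ 0 → 1 ≤ m ∧ m ≤ KA ε₂ N ∧ m.primeFactors ⊆ IZ N :=
    fun m hm => ⟨(hs1 m hm).1, (hs1 m hm).2.1.trans hka3, (hs1 m hm).2.2⟩
  set x : ℝ := ∑ m ∈ Finset.Icc 1 (KA ε₂ N), s m ^ 2 with hx
  have hx0 : 0 ≤ x := Finset.sum_nonneg fun m _ => sq_nonneg _
  have hxB : x ≤ B := by
    have h1 := (abs_le.mp hs3).2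
    have h2 : h₀ * P₀ ≤ h₀ := by nlinarith
    rw [hB]
    linarith
  have hcn0 : 0 ≤ cn (zz N) (KA ε₂ N) a := by
    unfold cn
    apply tsum_nonneg
    intro m
    split_ifs
    · positivity
    · exact le_refl _
  have hsB : Real.sqrt x ≤ Real.sqrt B := Real.sqrt_le_sqrt hxB
  have hse2 : Real.sqrt e₂ ≤ Real.sqrt e := Real.sqrt_le_sqrt (min_le_right _ _)
  have hse1 : Real.sqrt e ≤ 1 := by
    rw [hse, div_le_one (by positivity)]
    nlinarith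
  have hcnC : cn (zz N) (KA ε₂ N) a ≤ C₀ := by
    calc cn (zz N) (KA ε₂ N) a = Real.sqrt (cn (zz N) (KA ε₂ N) a) ^ 2 := (Real.sq_sqrt hcn0).symm
      _ ≤ (Real.sqrt B + 1) ^ 2 := by
        apply pow_le_pow_left₀ (Real.sqrt_nonneg _)
        linarith
  have hxC : x ≤ C₀ := by
    have h1 : B = Real.sqrt B ^ 2 := (Real.sq_sqrt (by linarith)).symm
    have h2 : 0 ≤ Real.sqrt B := Real.sqrt_nonneg _
    rw [hC₀]
    nlinarith
  have hcd1 : cd (zz N) (KA ε₂ N) a s ≤ κ₁ := ha3.trans ((min_le_left _ _).trans (min_le_left _ _))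
  have hcd2 : cd (zz N) (KA ε₂ N) a s ≤ κ₂ := ha3.trans ((min_le_left _ _).trans (min_le_right _ _))
  -- the three sums
  set o : ι → ℝ := fun i => om (f i) * ((1 + se (f i)) / 2) with ho
  set F : ι → ℝ := fun i => ‖4 * Real.pi * lw (f i) (QQ δ ε₂ N) (ww δ ε₂ N a)‖ with hF
  set S : ι → ℝ := fun i => ∑ m ∈ Finset.Icc 1 (KA ε₂ N), s m * Um m (la (f i)) with hS
  have ho0 : ∀ i, 0 ≤ o i := by
    intro i
    rcases fib_se (hn i) with ⟨-, h⟩ | ⟨-, h⟩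
    · simp only [ho, h, mul_one]; exact fib_om _
    · simp only [ho, h, mul_zero]; exact le_refl _
  have hole : ∀ i, o i ≤ om (f i) := by
    intro i
    rcases fib_se (hn i) with ⟨-, h⟩ | ⟨-, h⟩
    · simp only [ho, h, mul_one]; exact le_refl _
    · simp only [ho, h, mul_zero]; exact fib_om _
  have hm1 : x - e ≤ ∑ i, o i * (F i * |S i|) := by
    refine (hN₄ N (by omega) f hf a ha1 hcnC s hs1 hcd2 hs2 hxC).trans ?_
    apply Finset.sum_le_sum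
    intro i _
    have h1 : (4 * Real.pi * lw (f i) (QQ δ ε₂ N) (ww δ ε₂ N a)).re * S i ≤ F i * |S i| := by
      calc _ ≤ |(4 * Real.pi * lw (f i) (QQ δ ε₂ N) (ww δ ε₂ N a)).re * S i| := le_abs_self _
        _ = |(4 * Real.pi * lw (f i) (QQ δ ε₂ N) (ww δ ε₂ N a)).re| * |S i| := abs_mul _ _
        _ ≤ _ := mul_le_mul_of_nonneg_right (Complex.abs_re_le_norm _) (abs_nonneg _)
    have h2 := mul_le_mul_of_nonneg_left h1 (ho0 i)
    calc _ = o i * ((4 * Real.pi * lw (f i) (QQ δ ε₂ N) (ww δ ε₂ N a)).re * S i) := by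
          simp only [ho, hS]; ring
      _ ≤ _ := h2
  have hm2 : ∑ i, o i * F i ^ 2 ≤ 2 * (1 + 1 / (1 - 2 * δ)) * cn (zz N) (KA ε₂ N) a + e := by
    have h1 := hN₃ N (by omega) (fun i : {i : ι // co (f i) N = 1} => f i.1)
      (fun i j h => Subtype.ext (hi h)) (fun i => hn i.1) (fun i => i.2) a ha1 hcnC s
      (fun m hm => (hs1' m hm).2.1) hcd1
    refine le_trans (le_of_eq ?_) h1
    have h2 : ∑ i : {i : ι // co (f i) N = 1}, om (f i.1) *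
        ‖4 * Real.pi * lw (f i.1) (QQ δ ε₂ N) (ww δ ε₂ N a)‖ ^ 2 =
        ∑ i ∈ Finset.univ.filter (fun i => co (f i) N = 1), om (f i) * F i ^ 2 := by
      exact (Finset.sum_subtype (Finset.univ.filter (fun i => co (f i) N = 1)) (fun i => by simp)
        (fun i => om (f i) * F i ^ 2)).symm
    rw [h2, Finset.sum_filter]
    apply Finset.sum_congr rfl
    intro i _
    rcases fib_se (hn i) with ⟨h3, h⟩ | ⟨h3, h⟩
    · simp only [ho, h, mul_one, h3, if_true]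
    · simp only [ho, h, mul_zero, h3, if_false, zero_mul]
  have hm3 : ∑ i, o i * |S i| ^ 2 ≤ 2 * x := by
    have h1 := transfer f hi hn (ν := 1 / 100) (by norm_num) (by norm_num) hka1 hka2
      (I := IZ N) hIZ hP (G := fun x => ∑ m ∈ Finset.Icc 1 (KA ε₂ N), s m * Um m x)
      ⟨s, hs1', fun x => rfl⟩ 0
    have h2 : ∫ x, (∑ m ∈ Finset.Icc 1 (KA ε₂ N), s m * Um m x) ^ 2 ∂P = x :=
      st_sq (fun p hp => (hIZ p hp).1) hP hs1'
    simp only [zero_mul, add_zero] at h1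
    rw [h2] at h1
    have h3 : Real.exp (8 * Real.pi * (1 / 100)) * (x + 0 ^ 2) ≤ 2 * x := by
      have h4 := mul_le_mul_of_nonneg_right fib_exp hx0
      simpa using h4
    refine le_trans ?_ (h1.trans h3)
    apply Finset.sum_le_sum
    intro i _
    rw [sq_abs]
    exact mul_le_mul_of_nonneg_right (hole i) (sq_nonneg _)
  -- the good set
  set t : Finset ι := Finset.univ.filter (fun i => κ * |S i| ≤ F i ∧ |S i| ≠ 0) with ht
  have ht' : ∀ i, i ∉ t → F i < κ * |S i| ∨ |S i| = 0 := by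
    intro i hi'
    by_contra h
    push Not at h
    apply hi'
    rw [ht, Finset.mem_filter]
    exact ⟨Finset.mem_univ _, h.1, h.2⟩
  have hG : x / 4 - ε' ≤ ∑ i ∈ t, o i * |S i| ^ 2 := by
    have hpos : 0 ≤ ∑ i ∈ t, o i * |S i| ^ 2 :=
      Finset.sum_nonneg fun i _ => mul_nonneg (ho0 i) (sq_nonneg _)
    rcases fib_ineq (m₁ := x - e) (m₂ := 2 * (1 + 1 / (1 - 2 * δ)) * cn (zz N) (KA ε₂ N) a + e)
      (m₃ := 2 * x) hx0 hxB hB1 hε0 (by linarith) he0 hse.le hδ0 hδ2 hδ1 hκ0 le_rfl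
      (ha4.trans (by linarith)) hcn0 rfl rfl rfl with h | ⟨h1, h2, h3⟩
    · linarith
    · exact h3.trans (cs_large o F (fun i => |S i|) ho0 (fun i => norm_nonneg _)
        (fun i => abs_nonneg _) hκ0.le hm1 hm2 hm3 h1 h2 t ht')
  refine ⟨s, t.filter (fun i => co (f i) N = 1), hs1, hs2, ?_, ?_, ?_⟩
  · exact (hs4 f hf).trans (by linarith)
  · intro i hit
    rw [Finset.mem_filter, ht, Finset.mem_filter] at hit
    obtain ⟨⟨-, h1, h2⟩, h3⟩ := hit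
    refine ⟨h3, ?_⟩
    have h4 := lm_all (hn i) h3 (z := zz N) (M := MM δ N) (K := 2) (A := KA ε₂ N) (a := a)
      ha1.sup hQN
    have h5 : ∑ k ∈ Finset.Icc 1 (KA ε₂ N), a k * la (f i) k = Bz A₁ N (la (f i)) * S i := by
      rw [hS]
      simp only
      rw [← ha2 (la (f i))]
      apply Finset.sum_congr rfl
      intro k hk
      rw [Finset.mem_Icc] at hk
      rw [um_new (hn i) (new_real (hn i)) (by omega)
        (Nat.coprime_of_lt_prime (by omega) (by omega) (Fact.out : N.Prime)).symm]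
    have h6 : F i = ‖Lh (f i)‖ * (|Bz A₁ N (la (f i))| * |S i|) *
        |Mr (zz N) (MM δ N) 2 (la (f i))| := by
      have h7 : F i = ‖4 * Real.pi * lw (f i) (QA (MM δ N) 2 (KA ε₂ N))
        (wA (zz N) (MM δ N) 2 (KA ε₂ N) a)‖ := rfl
      rw [h7, ← h4, norm_mul, norm_mul, Complex.norm_real, Complex.norm_real, h5, Real.norm_eq_abs,
        Real.norm_eq_abs, abs_mul]
    have h8 : 0 < |S i| := lt_of_le_of_ne (abs_nonneg _) (Ne.symm h2)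
    rw [h6] at h1
    have h9 : κ * |S i| ≤ ‖Lh (f i)‖ * |Bz A₁ N (la (f i))| *
        |Mr (zz N) (MM δ N) 2 (la (f i))| * |S i| := by
      calc _ ≤ _ := h1
        _ = _ := by ring
    exact le_of_mul_le_mul_right h9 h8
  · have h1 : ∑ i ∈ t, o i * |S i| ^ 2 =
        ∑ i ∈ t.filter (fun i => co (f i) N = 1), om (f i) * S i ^ 2 := by
      conv_rhs => rw [Finset.sum_filter]
      apply Finset.sum_congr rfl
      intro i _
      rcases fib_se (hn i) with ⟨h3, h⟩ | ⟨h3, h⟩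
      · simp only [ho, h, mul_one, h3, if_true, sq_abs]
      · simp only [ho, h, mul_zero, h3, if_false, zero_mul]
    rw [← h1]
    have h2 := (abs_le.mp hs3).1
    linarith

end Pool.Agent.KSL
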