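import Pool.Agent.Lib_helper68.KSM.JD
import Pool.Agent.Lib_helper68.KSLF.FIC

/-! KSM: harmonic weights. -/

namespace Pool.Agent.KSL

open Pool.Agent.LEV Pool.Agent.LVB
open Complex MeasureTheory Filter Topology UpperHalfPlane ModularGroup ProbabilityTheory
open scoped MatrixGroups Modular ENNReal ModularForm ComplexConjugate ContDiff

/-- from the mollified values to the values -/
theorem fic_low_j {d e κ L b m P l s : ℝ} (hκ : 0 < κ) (he1 : e ≤ d / 4) (hs0 : 0 ≤ s)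
    (hκL : -Real.log κ ≤ d / 2 * s) (hb : b ≤ Real.exp (-P + L / 2 + e * s))
    (hm0 : 0 ≤ m) (hm : m ≤ Real.exp (e * s)) (hl0 : 0 ≤ l)
    (hl : κ ≤ l * b * m) : Real.exp (P - L / 2 - d * s) ≤ l := by
  have h1 : l * b * m ≤ l * Real.exp (-P + L / 2 + e * s) * Real.exp (e * s) :=
    mul_le_mul (mul_le_mul_of_nonneg_left hb hl0) hm hm0 (by positivity)
  have h2 : κ ≤ l * Real.exp (-P + L / 2 + 2 * e * s) := by
    refine (hl.trans h1).trans (le_of_eq ?_)
    rw [mul_assoc, ← Real.exp_add]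
    congr 2
    ring
  have h3 : Real.exp (Real.log κ) = κ := Real.exp_log hκ
  have h4 : Real.exp (Real.log κ + P - L / 2 - 2 * e * s) ≤ l := by
    have h5 : Real.exp (Real.log κ + P - L / 2 - 2 * e * s) =
        κ * Real.exp (-(-P + L / 2 + 2 * e * s)) := by
      rw [← h3, ← Real.exp_add, h3]
      congr 1
      ring
    rw [h5, Real.exp_neg, ← div_eq_mul_inv, div_le_iff₀ (Real.exp_pos _)]
    exact h2
  refine le_trans (Real.exp_le_exp.mpr ?_) h4
  have h6 : e * s ≤ d / 4 * s := mul_le_mul_of_nonneg_right he1 hs0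
  linarith

theorem final_harm_j (A : Finset ℕ) (c : ℕ → ℝ) (hA : ∀ a ∈ A, 1 ≤ a) (hc : ∀ a, 0 ≤ c a) (V : ℝ)
    {d ε : ℝ} (hd : 0 < d) (hε : 0 < ε) : ∃ N₀ : ℕ, ∀ (N : ℕ) [Fact N.Prime], N₀ ≤ N → ∀ {ι : Type}
    [Fintype ι] (f : ι → S2 N), AllNew f → ∃ t : Finset ι,
      (∀ i ∈ t, co (f i) N = 1 ∧ Real.exp (PB (IN N) (la (f i)) - Real.log (Real.log N) / 2 -
        d * Real.sqrt (Real.log (Real.log N))) ≤ ‖Lh (f i)‖ ∧ Pn N (la (f i)) < V) ∧
      1 / 4 * ((∑ a ∈ A, c a) * (gaussianReal 0 1).real (Set.Iio V)) - ε ≤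
        ∑ i ∈ t, om (f i) * Hd A c (la (f i)) := by
  classical
  set h₀ : ℝ := ∑ a ∈ A, c a with hh₀
  have hh0 : 0 ≤ h₀ := Finset.sum_nonneg fun a _ => hc a
  obtain ⟨A₁, κ, δ, ε₂, C₄, N₁, hA₁, hκ, hδ, hδ4, hε₂, hε₂8, hm⟩ :=
    moll_half_j A c hA hc V (ε := ε / 8) (by positivity)
  set e : ℝ := min (d / 4) (ε ^ 2 / (256 * (|C₄| + 1))) with he
  have he0 : 0 < e := lt_min (by positivity) (by positivity)
  have he1 : e ≤ d / 4 := min_le_left _ _
  have he2 : e ≤ ε ^ 2 / (256 * (|C₄| + 1)) := min_le_right _ _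
  obtain ⟨N₂, hN₂⟩ := typ_b hA₁ he0
  obtain ⟨N₃, hN₃⟩ := typ_m hδ hδ4 he0
  obtain ⟨N₄, hN₄⟩ := hb_in he0
  obtain ⟨N₅, hN₅⟩ := fic_ka hε₂8
  obtain ⟨N₆, hN₆⟩ := iz_split
  have hll : Tendsto (fun N : ℕ => Real.log (Real.log (N : ℝ))) atTop atTop :=
    Real.tendsto_log_atTop.comp (Real.tendsto_log_atTop.comp tendsto_natCast_atTop_atTop)
  obtain ⟨N₇, hN₇⟩ := Filter.eventually_atTop.mp
    (hll.eventually_ge_atTop (max 0 ((2 * -Real.log κ / d) ^ 2)))
  refine ⟨N₁ + N₂ + N₃ + N₄ + N₅ + N₆ + N₇ + 1, fun N _ hN ι _ f hf => ?_⟩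
  have hi : Function.Injective f := hf.1
  have hn : ∀ i, IsNew (f i) := fun i => (hf.2 (f i)).mpr ⟨i, rfl⟩
  obtain ⟨s, G, hs1, hs2, hs3, hG1, hG2⟩ := hm N (by omega) f hf
  obtain ⟨-, -, hIZ, -, -⟩ := hN₆ N (by omega)
  obtain ⟨hb1, hb2, hb3⟩ := hN₄ N (by omega)
  have hL := hN₇ N (by omega)
  set L : ℝ := Real.log (Real.log N) with hLdef
  have hL0 : 0 ≤ L := (le_max_left _ _).trans hL
  have hκL : -Real.log κ ≤ d / 2 * Real.sqrt L := by
    have h1 : (2 * -Real.log κ / d) ^ 2 ≤ L := (le_max_right _ _).trans hL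
    have h2 : 2 * -Real.log κ / d ≤ Real.sqrt L := Real.le_sqrt_of_sq_le h1
    rw [div_le_iff₀ hd] at h2
    linarith
  set S : ι → ℝ := fun i => ∑ m ∈ Finset.Icc 1 (KA ε₂ N), s m * Um m (la (f i)) with hS
  obtain ⟨P, hP⟩ := st_exists (IZ N) (fun p hp => (hIZ p hp).1)
  have hs1' : ∀ m, s m ≠ 0 → 1 ≤ m ∧ m ≤ KA ε₂ N ∧ m.primeFactors ⊆ IZ N := by
    intro m hm'
    refine ⟨(hs1 m hm').1, (hs1 m hm').2.1.trans ?_, (hs1 m hm').2.2⟩
    unfold KA
    apply Nat.floor_le_floor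
    apply Real.rpow_le_rpow_of_exponent_le _ (by linarith)
    have : 1 ≤ N := by omega
    exact_mod_cast this
  have hHS : HPoly (IZ N) (KA ε₂ N) (fun x => ∑ m ∈ Finset.Icc 1 (KA ε₂ N), s m * Um m x) :=
    ⟨s, hs1', fun x => rfl⟩
  have hHS2 : HPoly (IZ N) (KA ε₂ N * KA ε₂ N)
      (fun x => (∑ m ∈ Finset.Icc 1 (KA ε₂ N), s m * Um m x) ^ 2) := by
    have h1 := hpoly_mul (fun p hp => (hIZ p hp).1) (fun p hp => (hIZ p hp).1) hHS hHS
    rw [Finset.union_self] at h1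
    simpa only [sq] using h1
  have hKA1 : 1 ≤ KA ε₂ N := by
    unfold KA
    rw [Nat.one_le_floor_iff]
    apply Real.one_le_rpow _ hε₂.le
    have : 1 ≤ N := by omega
    exact_mod_cast this
  have hS4 : ∑ i, om (f i) * (S i ^ 2) ^ 2 ≤ 2 * (|C₄| + 1) := by
    have h1 := transfer f hi hn (ν := 1 / 100) (by norm_num) (by norm_num)
      (X := KA ε₂ N * KA ε₂ N) (Nat.mul_pos hKA1 hKA1) (hN₅ N (by omega)) (I := IZ N) hIZ hP hHS2 0
    simp only [zero_mul, add_zero] at h1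
    have h2 : ∫ x, ((∑ m ∈ Finset.Icc 1 (KA ε₂ N), s m * Um m x) ^ 2) ^ 2 ∂P ≤ |C₄| + 1 := by
      have h3 := hs2 P hP
      have h4 : ∀ x : ℕ → ℝ, ((∑ m ∈ Finset.Icc 1 (KA ε₂ N), s m * Um m x) ^ 2) ^ 2 =
          (∑ m ∈ Finset.Icc 1 (KA ε₂ N), s m * Um m x) ^ 4 := fun x => by ring
      simp only [h4]
      linarith [le_abs_self C₄]
    refine h1.trans ?_
    have h5 : (0 : ℝ) ≤ ∫ x, ((∑ m ∈ Finset.Icc 1 (KA ε₂ N), s m * Um m x) ^ 2) ^ 2 ∂P :=
      integral_nonneg fun x => sq_nonneg _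
    exact mul_le_mul fic_exp (by linarith) (by linarith) (by norm_num)
  -- the atypical sets
  set t₁ : Finset ι := Finset.univ.filter (fun i => Real.exp (-PB (IN N) (la (f i)) +
    Real.log (Real.log N) / 2 + e * Real.sqrt (Real.log (Real.log N))) <
      |Bz A₁ N (la (f i))|) with ht₁
  set t₂ : Finset ι := Finset.univ.filter (fun i => Real.exp (e * Real.sqrt (Real.log (Real.log N))) <
      |Mr (zz N) (MM δ N) 2 (la (f i))|) with ht₂
  have hb : ∑ i ∈ t₁, om (f i) ≤ e := hN₂ N (by omega) f hi hn t₁ (fun i hi' => by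
    rw [ht₁, Finset.mem_filter] at hi'; exact hi'.2)
  have hmm : ∑ i ∈ t₂, om (f i) ≤ e := hN₃ N (by omega) f hi hn t₂ (fun i hi' => by
    rw [ht₂, Finset.mem_filter] at hi'; exact hi'.2)
  have hbm : ∑ i ∈ t₁ ∪ t₂, om (f i) ≤ 2 * e := by
    have h1 : ∑ i ∈ t₁ ∪ t₂, om (f i) ≤ ∑ i ∈ t₁, om (f i) + ∑ i ∈ t₂, om (f i) := by
      rw [← Finset.sum_union_inter]
      have : 0 ≤ ∑ i ∈ t₁ ∩ t₂, om (f i) := Finset.sum_nonneg fun i _ => fic_om _
      linarith
    linarith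
  have hsm : ∑ i ∈ t₁ ∪ t₂, om (f i) * S i ^ 2 ≤ ε / 8 := by
    refine (fic_small (fun i => om (f i)) S (fun i => fic_om _) (by linarith) _ hbm hS4).trans ?_
    rw [Real.sqrt_le_left (by positivity)]
    have h1 : e * (256 * (|C₄| + 1)) ≤ ε ^ 2 := by
      rw [le_div_iff₀ (by positivity)] at he2
      exact he2
    nlinarith
  refine ⟨G.filter (fun i => i ∉ t₁ ∪ t₂ ∧ Pn N (la (f i)) < V), ?_, ?_⟩
  · intro i hit
    rw [Finset.mem_filter, Finset.mem_union] at hit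
    obtain ⟨hiG, hit, hiV⟩ := hit
    push Not at hit
    obtain ⟨h1, h2⟩ := hG1 i hiG
    refine ⟨h1, ?_⟩
    have h3 : |Bz A₁ N (la (f i))| ≤ Real.exp (-PB (IN N) (la (f i)) + L / 2 + e * Real.sqrt L) := by
      by_contra h
      push Not at h
      exact hit.1 (by rw [ht₁, Finset.mem_filter]; exact ⟨Finset.mem_univ _, h⟩)
    have h4 : |Mr (zz N) (MM δ N) 2 (la (f i))| ≤ Real.exp (e * Real.sqrt L) := by
      by_contra h
      push Not at h
      exact hit.2 (by rw [ht₂, Finset.mem_filter]; exact ⟨Finset.mem_univ _, h⟩)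
    refine ⟨?_, hiV⟩
    exact fic_low_j hκ he1 (Real.sqrt_nonneg _) hκL h3 (abs_nonneg _) h4 (norm_nonneg _) h2
  · have hHd : ∀ i, 0 ≤ Hd A c (la (f i)) := fun i =>
      Finset.sum_nonneg fun a _ => mul_nonneg (hc a) (sq_nonneg _)
    have h1 : ∑ i ∈ G, om (f i) * S i ^ 2 ≤
        ∑ i ∈ G.filter (fun i => i ∉ t₁ ∪ t₂ ∧ Pn N (la (f i)) < V),
          om (f i) * Hd A c (la (f i)) +
        ∑ i, om (f i) * |S i ^ 2 - Hd A c (la (f i)) * jV V (Pn N (la (f i)))| +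
        ∑ i ∈ t₁ ∪ t₂, om (f i) * S i ^ 2 := by
      have h2 : ∑ i ∈ G, om (f i) * S i ^ 2 ≤ ∑ i ∈ G,
          ((if i ∉ t₁ ∪ t₂ ∧ Pn N (la (f i)) < V then om (f i) * Hd A c (la (f i)) else 0) +
          om (f i) * |S i ^ 2 - Hd A c (la (f i)) * jV V (Pn N (la (f i)))| +
          (if i ∈ t₁ ∪ t₂ then om (f i) * S i ^ 2 else 0)) := by
        apply Finset.sum_le_sum
        intro i _
        have hoi := fic_om (f i)
        by_cases h3 : i ∈ t₁ ∪ t₂
        · rw [if_pos h3, if_neg (fun h => h.1 h3)]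
          have : 0 ≤ om (f i) * |S i ^ 2 - Hd A c (la (f i)) * jV V (Pn N (la (f i)))| := by
            positivity
          linarith
        · rw [if_neg h3]
          by_cases h4 : Pn N (la (f i)) < V
          · rw [if_pos ⟨h3, h4⟩]
            have h5 : jV V (Pn N (la (f i))) = 1 := by unfold jV; rw [if_neg (not_le.2 h4)]
            rw [h5, mul_one, add_zero, ← mul_add]
            apply mul_le_mul_of_nonneg_left _ hoi
            have := le_abs_self (S i ^ 2 - Hd A c (la (f i)))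
            linarith
          · rw [if_neg (fun h => h4 h.2)]
            have h5 : jV V (Pn N (la (f i))) = 0 := by unfold jV; rw [if_pos (not_lt.1 h4)]
            rw [h5, mul_zero, sub_zero, add_zero, zero_add]
            apply mul_le_mul_of_nonneg_left (le_abs_self _) hoi
      refine h2.trans ?_
      rw [Finset.sum_add_distrib, Finset.sum_add_distrib, ← Finset.sum_filter]
      have h6 : ∑ i ∈ G, om (f i) * |S i ^ 2 - Hd A c (la (f i)) * jV V (Pn N (la (f i)))| ≤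
          ∑ i, om (f i) * |S i ^ 2 - Hd A c (la (f i)) * jV V (Pn N (la (f i)))| := by
        apply Finset.sum_le_sum_of_subset_of_nonneg (Finset.subset_univ _)
        intro i _ _
        exact mul_nonneg (fic_om _) (abs_nonneg _)
      have h7 : ∑ i ∈ G, (if i ∈ t₁ ∪ t₂ then om (f i) * S i ^ 2 else 0) ≤
          ∑ i ∈ t₁ ∪ t₂, om (f i) * S i ^ 2 := by
        rw [← Finset.sum_filter]
        apply Finset.sum_le_sum_of_subset_of_nonneg
        · intro i hi'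
          rw [Finset.mem_filter] at hi'
          exact hi'.2
        · intro i _ _
          exact mul_nonneg (fic_om _) (sq_nonneg _)
      linarith
    linarith

end Pool.Agent.KSL
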