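import Pool.Agent.Lib_helper68.KSM.JE
import Pool.Agent.Lib_helper68.KSLF.FID

/-! KSM: equal weights. -/

namespace Pool.Agent.KSL

open Pool.Agent.LEV Pool.Agent.LVB
open Pool.Agent.FG61 (mu phi cc ff AA Lam)
open Complex MeasureTheory Filter Topology UpperHalfPlane ModularGroup ProbabilityTheory
open scoped MatrixGroups Modular ENNReal ModularForm ComplexConjugate ContDiff

theorem final_nat_j (V : ℝ) {d ε : ℝ} (hd : 0 < d) (hε : 0 < ε) : ∃ N₀ : ℕ, ∀ (N : ℕ) [Fact N.Prime],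
    N₀ ≤ N → (N : ℝ) / 24 * (1 / 2 * (gaussianReal 0 1).real (Set.Iio V) - ε) ≤
      ({f : S2 N | (IsNew f ∧ co f N = 1) ∧ Real.exp (PB (IN N) (la f) -
        Real.log (Real.log N) / 2 - d * Real.sqrt (Real.log (Real.log N))) ≤ ‖Lh f‖ ∧
        Pn N (la f) < V}.ncard : ℝ) := by
  classical
  obtain ⟨C₄, hC₄⟩ := nat_sharp
  obtain ⟨C, hC1, hCC⟩ : ∃ C : ℝ, 1 ≤ C ∧ C₄ ≤ C := ⟨max 1 C₄, le_max_left _ _, le_max_right _ _⟩
  set γ : ℝ := (gaussianReal 0 1).real (Set.Iio V) with hγ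
  have hγ0 : 0 ≤ γ := measureReal_nonneg
  have hγ1 : γ ≤ 1 := measureReal_le_one
  set K : ℝ := Real.sqrt (2 * Real.sqrt C) with hK
  have hK0 : 0 ≤ K := Real.sqrt_nonneg _
  obtain ⟨ε₁, he0, he1, he2⟩ : ∃ ε₁ : ℝ, 0 < ε₁ ∧ ε₁ ≤ 1 ∧ (4 + K) * Real.sqrt ε₁ ≤ ε / 2 := by
    refine ⟨min 1 ((ε / (2 * (4 + K))) ^ 2), by positivity, min_le_left _ _, ?_⟩
    have h1 : Real.sqrt (min 1 ((ε / (2 * (4 + K))) ^ 2)) ≤ ε / (2 * (4 + K)) := by
      rw [← Real.sqrt_sq (show 0 ≤ ε / (2 * (4 + K)) by positivity)]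
      exact Real.sqrt_le_sqrt (by
        rw [Real.sqrt_sq (by positivity)]
        exact min_le_right _ _)
    calc (4 + K) * Real.sqrt (min 1 ((ε / (2 * (4 + K))) ^ 2)) ≤ (4 + K) * (ε / (2 * (4 + K))) := by
          gcongr
      _ = ε / 2 := by field_simp
  obtain ⟨z, A, hA, hAs, hAI, N₁, hs1⟩ := hC₄ ε₁ he0
  obtain ⟨N₂, hfin⟩ := final_harm_j A (fun a => VV z / a)
    (fun a ha => Nat.one_le_iff_ne_zero.mpr (hA a ha).1)
    (fun a => div_nonneg (fid_VV z) (Nat.cast_nonneg a)) V hd he0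
  obtain ⟨ν, hν0, hν1, hνe⟩ := fid_exp
  obtain ⟨N₃, hN₃⟩ := exists_nat_gt ((((A.sup id) ^ 2 + 1 : ℕ) : ℝ) / ν ^ 2)
  obtain ⟨_, _, hnf⟩ := new_fin
  refine ⟨max (max N₁ N₂) (max N₃ (z + 1)), fun N _ hN => ?_⟩
  have hN1 : N₁ ≤ N := le_trans (by simp) hN
  have hN2 : N₂ ≤ N := le_trans (by simp) hN
  have hN3 : N₃ ≤ N := le_trans (by simp) hN
  have hNz : z < N := Nat.lt_of_succ_le (le_trans (by simp) hN)
  have hN0 : (0 : ℝ) < N := by exact_mod_cast (Fact.out : N.Prime).pos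
  have hXN : (((A.sup id) ^ 2 + 1 : ℕ) : ℝ) ≤ ν ^ 2 * N := by
    have h1 : (((A.sup id) ^ 2 + 1 : ℕ) : ℝ) / ν ^ 2 ≤ N :=
      hN₃.le.trans (by exact_mod_cast hN3)
    rw [div_le_iff₀ (by positivity)] at h1
    linarith
  have hF : {f : S2 N | IsNew f}.Finite := (hnf N).1
  have : Fintype {f : S2 N // IsNew f} := hF.fintype
  set f : {f : S2 N // IsNew f} → S2 N := fun i => i.1 with hf
  have hinj : Function.Injective f := Subtype.coe_injective
  have hn : ∀ i, IsNew (f i) := fun i => i.2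
  have hall : AllNew f := ⟨hinj, fun g => ⟨fun hg => ⟨⟨g, hg⟩, rfl⟩, fun ⟨i, hi⟩ => hi ▸ i.2⟩⟩
  have hom : ∀ i, 0 ≤ om (f i) := fun i => (fid_om (hn i)).2.1.le
  have hPr : ∀ p ∈ Pr N, p.Prime ∧ p < N := by
    intro p hp
    obtain ⟨h2, h3⟩ := Finset.mem_filter.mp hp
    exact ⟨h3, Finset.mem_range.mp h2⟩
  obtain ⟨P, hP⟩ := st_exists (Pr N) (fun p hp => (hPr p hp).1)
  have hHA := fid_ha hA hNz
  have hHA0 : ∀ x, 0 ≤ HA z A x := by
    intro x
    unfold HA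
    exact Finset.sum_nonneg fun a _ => mul_nonneg (div_nonneg (fid_VV z) (Nat.cast_nonneg a))
      (sq_nonneg _)
  -- moments
  have hmass : ∑ i, om (f i) ≤ 2 := by
    have h := transfer f hinj hn hν0 hν1 (X := 1) le_rfl (by
        refine le_trans ?_ hXN
        exact_mod_cast Nat.le_add_left 1 _) hPr hP
      (G := fun _ => 0) ⟨fun _ => 0, fun m hm => absurd rfl hm, fun x => by simp⟩ 1
    have h4 : ∑ i, om (f i) * ((0 : ℝ) + 1 * se (f i)) ^ 2 = ∑ i, om (f i) := by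
      refine Finset.sum_congr rfl fun i _ => ?_
      have := fid_se (hn i)
      linear_combination om (f i) * this
    simp only [h4] at h
    refine h.trans ?_
    simpa using hνe
  have hsq : ∑ i, om (f i) * HA z A (la (f i)) ^ 2 ≤ 2 * Real.sqrt C := by
    have h := transfer f hinj hn hν0 hν1 (Nat.le_add_left 1 _) hXN hPr hP hHA 0
    have h4 : ∑ i, om (f i) * (HA z A (la (f i)) + 0 * se (f i)) ^ 2 =
        ∑ i, om (f i) * HA z A (la (f i)) ^ 2 := by simp only [zero_mul, add_zero]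
    rw [h4] at h
    have h5 : ∫ x, HA z A x ^ 2 ∂P ≤ Real.sqrt C := by
      apply Real.le_sqrt_of_sq_le
      refine (fid_four hP hHA).trans (((hAI (Pr N) (fun p hp => (hPr p hp).1) ?_ P hP).2).trans hCC)
      intro p hp hpz
      exact Finset.mem_filter.mpr ⟨Finset.mem_range.mpr (by omega), hp⟩
    have h6 : 0 ≤ ∫ x, HA z A x ^ 2 ∂P := integral_nonneg fun x => sq_nonneg _
    calc _ ≤ _ := h
      _ ≤ 2 * (Real.sqrt C + 0 ^ 2) := by
        apply mul_le_mul hνe _ (by positivity) (by norm_num)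
        linarith
      _ = _ := by ring
  -- the sets
  obtain ⟨t, ht, htsum⟩ := hfin N hN2 f hall
  set s : Finset {f : S2 N // IsNew f} := Finset.univ.filter
    (fun i => 4 * Real.pi * nr (f i) < N / 12 * ((1 - ε₁) * HA z A (la (f i)) - ε₁)) with hs
  have hsm : ∑ i ∈ s, om (f i) ≤ ε₁ :=
    hs1 N hN1 f hinj hn s (fun i hi => (Finset.mem_filter.mp hi).2)
  have htsum' : 1 / 4 * ((1 - ε₁) * γ) - ε₁ ≤ ∑ i ∈ t, om (f i) * HA z A (la (f i)) := by
    have h1 : ∑ a ∈ A, VV z / (a : ℝ) = VV z * ∑ a ∈ A, 1 / (a : ℝ) := by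
      rw [Finset.mul_sum]
      exact Finset.sum_congr rfl fun a _ => by ring
    have h2 : 1 / 4 * ((∑ a ∈ A, VV z / (a : ℝ)) * γ) - ε₁ ≤
        ∑ i ∈ t, om (f i) * HA z A (la (f i)) := htsum
    rw [h1] at h2
    have h3 : (1 - ε₁) * γ ≤ (VV z * ∑ a ∈ A, 1 / (a : ℝ)) * γ :=
      mul_le_mul_of_nonneg_right hAs hγ0
    linarith
  have hbad : ∑ i ∈ s, om (f i) * HA z A (la (f i)) ≤ Real.sqrt ε₁ * K := by
    refine fid_cs s (fun i => om (f i)) (fun i => HA z A (la (f i))) hom hsm ?_ he0.le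
    refine le_trans ?_ hsq
    exact Finset.sum_le_sum_of_subset_of_nonneg (Finset.subset_univ _)
      fun i _ _ => mul_nonneg (hom i) (sq_nonneg _)
  have hgood : 1 / 4 * ((1 - ε₁) * γ) - ε₁ - Real.sqrt ε₁ * K ≤
      ∑ i ∈ t \ s, om (f i) * HA z A (la (f i)) := by
    have h1 := Finset.sum_sdiff_sub_sum_sdiff (s₁ := t) (s₂ := s)
      (f := fun i => om (f i) * HA z A (la (f i)))
    have h2 : 0 ≤ ∑ i ∈ s \ t, om (f i) * HA z A (la (f i)) :=
      Finset.sum_nonneg fun i _ => mul_nonneg (hom i) (hHA0 _)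
    linarith
  have hmt : ∑ i ∈ t \ s, om (f i) ≤ 2 :=
    (Finset.sum_le_sum_of_subset_of_nonneg (Finset.subset_univ _) fun i _ _ => hom i).trans hmass
  have hcard : (N : ℝ) / 12 * ((1 - ε₁) * ∑ i ∈ t \ s, om (f i) * HA z A (la (f i)) -
      ε₁ * ∑ i ∈ t \ s, om (f i)) ≤ (t \ s).card := by
    calc (N : ℝ) / 12 * ((1 - ε₁) * ∑ i ∈ t \ s, om (f i) * HA z A (la (f i)) -
          ε₁ * ∑ i ∈ t \ s, om (f i)) =
        ∑ i ∈ t \ s, (N : ℝ) / 12 * ((1 - ε₁) * HA z A (la (f i)) - ε₁) * om (f i) := by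
          rw [Finset.mul_sum, Finset.mul_sum, ← Finset.sum_sub_distrib, Finset.mul_sum]
          exact Finset.sum_congr rfl fun i _ => by ring
      _ ≤ ∑ i ∈ t \ s, 1 := by
          refine Finset.sum_le_sum fun i hi => ?_
          obtain ⟨h6, h7, h8⟩ := fid_om (hn i)
          have h9 : i ∉ s := (Finset.mem_sdiff.mp hi).2
          have h10 : (N : ℝ) / 12 * ((1 - ε₁) * HA z A (la (f i)) - ε₁) ≤
              4 * Real.pi * nr (f i) := by
            by_contra hcon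
            push Not at hcon
            exact h9 (Finset.mem_filter.mpr ⟨Finset.mem_univ _, hcon⟩)
          exact (mul_le_mul_of_nonneg_right h10 h7.le).trans h8.le
      _ = (t \ s).card := by simp
  have hfinal : (N : ℝ) / 24 * (1 / 2 * γ - ε) ≤ (t \ s).card := by
    refine le_trans ?_ hcard
    have h1 : ε₁ ≤ Real.sqrt ε₁ := by
      apply Real.le_sqrt_of_sq_le
      nlinarith
    have h2 : 0 ≤ Real.sqrt ε₁ := Real.sqrt_nonneg _
    have h3 : (1 - ε₁) * (1 / 4 * ((1 - ε₁) * γ) - ε₁ - Real.sqrt ε₁ * K) ≤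
        (1 - ε₁) * ∑ i ∈ t \ s, om (f i) * HA z A (la (f i)) :=
      mul_le_mul_of_nonneg_left hgood (by linarith)
    have h4 : ε₁ * ∑ i ∈ t \ s, om (f i) ≤ ε₁ * 2 := mul_le_mul_of_nonneg_left hmt he0.le
    have h5 : 1 / 4 * γ - ε / 2 ≤
        (1 - ε₁) * (1 / 4 * ((1 - ε₁) * γ) - ε₁ - Real.sqrt ε₁ * K) - ε₁ * 2 := by
      have h6 : 1 / 4 * γ - ε₁ / 2 ≤ (1 - ε₁) * (1 / 4 * ((1 - ε₁) * γ)) := by
        nlinarith [mul_nonneg he0.le hγ0, mul_nonneg (mul_nonneg he0.le he0.le) hγ0,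
          mul_le_mul_of_nonneg_left hγ1 he0.le]
      have h7 : (1 - ε₁) * (ε₁ + Real.sqrt ε₁ * K) ≤ ε₁ + Real.sqrt ε₁ * K := by
        have : 0 ≤ ε₁ + Real.sqrt ε₁ * K := by positivity
        nlinarith
      nlinarith
    have h8 : (N : ℝ) / 24 * (1 / 2 * γ - ε) = (N : ℝ) / 12 * (1 / 4 * γ - ε / 2) := by ring
    rw [h8]
    apply mul_le_mul_of_nonneg_left _ (by positivity)
    linarith
  refine hfinal.trans ?_
  norm_cast
  rw [← Finset.card_image_of_injective (t \ s) hinj, ← Set.ncard_coe_finset]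
  apply Set.ncard_le_ncard
  · intro g hg
    obtain ⟨i, hi, rfl⟩ := Finset.mem_image.mp (Finset.mem_coe.mp hg)
    obtain ⟨h7, h8⟩ := ht i (Finset.mem_sdiff.mp hi).1
    exact ⟨⟨hn i, h7⟩, h8⟩
  · exact hF.subset fun g hg => hg.1.1

end Pool.Agent.KSL
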