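import Pool.Agent.Lib_helper68.KSM.JF
import Pool.Agent.Lib_helper68.TKS.LT
import Pool.Agent.Lib_helper68.LSP2.GLW

/-! KSM: half of the normal law below a threshold. -/

set_option autoImplicit false

namespace Pool.Agent.KSL

open Pool.Agent.LEV Pool.Agent.LVB
open MeasureTheory Filter Topology ProbabilityTheory
open scoped ENNReal

theorem lw_iio (V : ℝ) : (gaussianReal 0 1).real (Set.Iio V) =
    1 - (gaussianReal 0 1).real (Set.Ici V) := by
  have h3 : (gaussianReal 0 1).real (Set.Ici V) + (gaussianReal 0 1).real (Set.Ici V)ᶜ = 1 :=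
    probReal_add_probReal_compl measurableSet_Ici
  rw [Set.compl_Ici] at h3
  linarith

theorem lw_pb {N : ℕ} (f : S2 N) : PB (IN N) (la f) = Pf f := by
  unfold PB Pf
  refine Finset.sum_congr rfl fun p hp => ?_
  have hp1 : p.Prime := by
    unfold IN at hp
    exact (Finset.mem_filter.1 hp).2.1
  have hp0 : (0 : ℝ) < p := by exact_mod_cast hp1.pos
  unfold la
  rw [div_div, Real.mul_self_sqrt hp0.le]

/-- half of the even forms obey the normal law below a threshold -/
theorem lower_half (V A : ℝ) (hA : 1 / 2 < A) (ε : ℝ) (hε : 0 < ε) : ∃ N₀ : ℕ,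
    ∀ (N : ℕ) [Fact N.Prime], N₀ ≤ N →
    (N : ℝ) / 24 * (1 / 2 * (1 - (gaussianReal 0 1).real (Set.Ici V)) - ε) ≤
      ({f : S2 N | (IsNew f ∧ co f N = 1) ∧ Real.log N ^ (-A) < ‖Lh f‖ ∧
        ‖Lh f‖ < Real.exp (-Real.log (Real.log N) / 2 +
          V * Real.sqrt (Real.log (Real.log N)))}.ncard : ℝ) := by
  obtain ⟨κ, hκ, hG⟩ := TOG_gauss V (half_pos hε)
  obtain ⟨W, hW⟩ : ∃ W : ℝ, W = V - κ := ⟨_, rfl⟩
  have hGW := hG W (by rw [hW])
  obtain ⟨e, he0, he1, he2, he3⟩ : ∃ e : ℝ, 0 < e ∧ e ≤ 1 ∧ e * (|W| + 1) ≤ κ / 2 ∧ e ≤ ε / 96 := by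
    refine ⟨min 1 (min (κ / (2 * (|W| + 1))) (ε / 96)), by positivity, min_le_left _ _, ?_,
      (min_le_right _ _).trans (min_le_right _ _)⟩
    have h1 : min 1 (min (κ / (2 * (|W| + 1))) (ε / 96)) ≤ κ / (2 * (|W| + 1)) :=
      (min_le_right _ _).trans (min_le_left _ _)
    calc min 1 (min (κ / (2 * (|W| + 1))) (ε / 96)) * (|W| + 1) ≤
          κ / (2 * (|W| + 1)) * (|W| + 1) := mul_le_mul_of_nonneg_right h1 (by positivity)
      _ = κ / 2 := by field_simp
  obtain ⟨U, hU⟩ := LSP.gauss_low (ε := ε / 16) (by positivity)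
  obtain ⟨N₁, h1⟩ := final_nat_j W one_pos (show (0 : ℝ) < ε / 4 by positivity)
  obtain ⟨N₂, h2⟩ := nat_main he0
  obtain ⟨N₃, h3⟩ := TKS.low_tail U (show (0 : ℝ) < ε / 16 by positivity)
  obtain ⟨N₄, h4⟩ := even_up (show (0 : ℝ) < 1 / 24 by norm_num)
  obtain ⟨N₅, h5⟩ := hb_in he0
  have hll : Tendsto (fun N : ℕ => Real.sqrt (Real.log (Real.log (N : ℝ)))) atTop atTop :=
    Real.tendsto_sqrt_atTop.comp (Real.tendsto_log_atTop.comp
      (Real.tendsto_log_atTop.comp tendsto_natCast_atTop_atTop))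
  obtain ⟨N₆, h6⟩ := Filter.eventually_atTop.mp
    (hll.eventually_gt_atTop (max 1 ((1 - U) / (A - 1 / 2))))
  refine ⟨N₁ + N₂ + N₃ + N₄ + N₅ + N₆ + 3, fun N hN hNN => ?_⟩
  have k1 := h1 N (by omega)
  have k2 := h2 N (by omega)
  have k3 := h3 N (by omega)
  have k4 := h4 N (by omega)
  obtain ⟨k5, k6, -⟩ := h5 N (by omega)
  have k7 := h6 N (by omega)
  rw [HE_eq] at k4
  rw [lw_iio] at k1
  have hlog : 0 < Real.log N := Real.log_pos (by exact_mod_cast (by omega : 1 < N))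
  set L : ℝ := Real.log (Real.log N) with hL
  set s : ℝ := Real.sqrt L with hs
  have hs1 : 1 < s := (le_max_left _ _).trans_lt k7
  have hs2 : (1 - U) / (A - 1 / 2) < s := (le_max_right _ _).trans_lt k7
  have hs0 : 0 < s := by linarith
  have hA' : 0 < A - 1 / 2 := by linarith
  rw [div_lt_iff₀ hA'] at hs2
  have hL0 : 0 ≤ L := by
    by_contra h
    push Not at h
    rw [hs, Real.sqrt_eq_zero_of_nonpos h.le] at hs1
    linarith
  have hLs : L = s * s := (Real.mul_self_sqrt hL0).symm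
  obtain ⟨C, _, hfin⟩ := new_fin
  have hF : {f : S2 N | IsNew f}.Finite := (hfin N).1
  set H : Set (S2 N) := {f : S2 N | IsNew f ∧ co f N = 1} with hH
  set J : Set (S2 N) := {f : S2 N | (IsNew f ∧ co f N = 1) ∧ Real.exp (PB (IN N) (la f) -
        L / 2 - 1 * s) ≤ ‖Lh f‖ ∧ Pn N (la f) < W} with hJ
  set B : Set (S2 N) := {f : S2 N | IsNew f ∧ co f N = 1 ∧
      Real.exp (-L / 2 + Pf f + e * s) < ‖Lh f‖} with hB
  set D : Set (S2 N) := {f : S2 N | (IsNew f ∧ co f N = 1) ∧ U * s ≤ Pf f} with hD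
  set E : Set (S2 N) := {f : S2 N | (IsNew f ∧ co f N = 1) ∧ Real.log N ^ (-A) < ‖Lh f‖ ∧
        ‖Lh f‖ < Real.exp (-L / 2 + V * s)} with hE
  have hHf : H.Finite := hF.subset (fun f hf => hf.1)
  have hJf : J.Finite := hF.subset (fun f hf => hf.1.1)
  have hBf : B.Finite := hF.subset (fun f hf => hf.1)
  have hDf : D.Finite := hF.subset (fun f hf => hf.1.1)
  have hEf : E.Finite := hF.subset (fun f hf => hf.1.1)
  have hDH : D ⊆ H := fun f hf => hf.1
  -- the root of the variance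
  have hHB : W * Real.sqrt (HB (IN N)) ≤ (W + |W| * e) * s := by
    have r1 : Real.sqrt (HB (IN N)) ≤ s := Real.sqrt_le_sqrt k5
    have r2 : (1 - e) * s ≤ Real.sqrt (HB (IN N)) := by
      apply Real.le_sqrt_of_sq_le
      calc ((1 - e) * s) ^ 2 = (1 - e) ^ 2 * L := by rw [hLs]; ring
        _ ≤ (1 - e) * L := by
            apply mul_le_mul_of_nonneg_right _ hL0
            nlinarith
        _ ≤ HB (IN N) := k6
    rcases le_or_gt 0 W with h | h
    · have r3 := mul_le_mul_of_nonneg_left r1 h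
      have r4 : 0 ≤ |W| * e * s := by positivity
      linarith
    · rw [abs_of_neg h]
      have r3 := mul_le_mul_of_nonpos_left r2 h.le
      linarith
  have hsub : J ⊆ (E ∪ B) ∪ (H \ D) := by
    rintro f ⟨hf1, hf2, hf3⟩
    by_cases hfD : f ∈ D
    · left
      by_cases hfB : f ∈ B
      · exact Or.inr hfB
      left
      refine ⟨hf1, ?_, ?_⟩
      · refine lt_of_lt_of_le ?_ hf2
        rw [lw_pb, Real.rpow_def_of_pos hlog, Real.exp_lt_exp, ← hL]
        have r1 : U * s ≤ Pf f := hfD.2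
        have r2 : (1 - U) * s < s * (A - 1 / 2) * s := mul_lt_mul_of_pos_right hs2 hs0
        have r3 : s * (A - 1 / 2) * s = A * L - L / 2 := by rw [hLs]; ring
        linarith
      · have r1 : ‖Lh f‖ ≤ Real.exp (-L / 2 + Pf f + e * s) := by
          by_contra hc
          push Not at hc
          exact hfB ⟨hf1.1, hf1.2, hc⟩
        refine lt_of_le_of_lt r1 ?_
        rw [Real.exp_lt_exp]
        have r2 : Pf f ≤ W * Real.sqrt (HB (IN N)) := by
          unfold Pn at hf3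
          rw [lw_pb] at hf3
          rcases (Real.sqrt_nonneg (HB (IN N))).eq_or_lt with r0 | r0
          · exfalso
            have r5 : (1 - e) * L ≤ HB (IN N) := k6
            have r6 : HB (IN N) ≤ 0 := by
              by_contra h
              push Not at h
              exact (Real.sqrt_pos.2 h).ne r0
            have r7 := (h5 N (by omega)).2.2
            linarith
          · rw [div_lt_iff₀ r0] at hf3
            exact hf3.le
        have r3 : e * (|W| + 1) * s ≤ κ / 2 * s := mul_le_mul_of_nonneg_right he2 hs0.le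
        have r4 : 0 < κ * s := mul_pos hκ hs0
        have r5 : V * s = W * s + κ * s := by rw [hW]; ring
        have r6 : (W + |W| * e) * s + e * s = W * s + e * (|W| + 1) * s := by ring
        linarith
    · right
      exact ⟨hf1, hfD⟩
  have hcard : (J.ncard : ℝ) ≤ (E.ncard : ℝ) + B.ncard + (H.ncard - D.ncard) := by
    have u1 : J.ncard ≤ ((E ∪ B) ∪ (H \ D)).ncard :=
      Set.ncard_le_ncard hsub ((hEf.union hBf).union (hHf.subset Set.sdiff_subset))
    have u2 : ((E ∪ B) ∪ (H \ D)).ncard ≤ (E ∪ B).ncard + (H \ D).ncard := Set.ncard_union_le _ _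
    have u3 : (E ∪ B).ncard ≤ E.ncard + B.ncard := Set.ncard_union_le _ _
    have u4 : (H \ D).ncard + D.ncard = H.ncard := Set.ncard_sdiff_add_ncard_of_subset hDH hHf
    have u5 : (J.ncard : ℝ) ≤ (E.ncard : ℝ) + B.ncard + ((H \ D).ncard : ℝ) := by
      exact_mod_cast (u1.trans (u2.trans (Nat.add_le_add_right u3 _)))
    have u6 : ((H \ D).ncard : ℝ) + D.ncard = H.ncard := by exact_mod_cast u4
    linarith
  have hN0 : (0 : ℝ) ≤ N := Nat.cast_nonneg _
  have hH0 : (0 : ℝ) ≤ H.ncard := Nat.cast_nonneg _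
  have m1 : (N : ℝ) / 24 * (1 / 2 * (1 - (gaussianReal 0 1).real (Set.Ici W)) - ε / 4) ≤
      J.ncard := k1
  have m2 : (B.ncard : ℝ) ≤ e * N := k2
  have m3 : ((gaussianReal 0 1).real (Set.Ici U) - ε / 16) * (H.ncard : ℝ) ≤ D.ncard := k3
  have m4 : (H.ncard : ℝ) ≤ (1 / 24 + 1 / 24) * N := k4
  have m5 : (H.ncard : ℝ) - D.ncard ≤ ε / 8 * H.ncard := by
    have r1 : (1 - ε / 16 - ε / 16) * (H.ncard : ℝ) ≤
        ((gaussianReal 0 1).real (Set.Ici U) - ε / 16) * (H.ncard : ℝ) :=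
      mul_le_mul_of_nonneg_right (by linarith) hH0
    linarith
  have m6 : ε / 8 * (H.ncard : ℝ) ≤ ε / 8 * ((1 / 24 + 1 / 24) * N) :=
    mul_le_mul_of_nonneg_left m4 (by positivity)
  have m7 : e * (N : ℝ) ≤ ε / 96 * N := mul_le_mul_of_nonneg_right he3 hN0
  have m8 : (N : ℝ) / 24 * (1 / 2 * (1 - (gaussianReal 0 1).real (Set.Ici V)) - ε / 2) ≤
      (N : ℝ) / 24 * (1 / 2 * (1 - (gaussianReal 0 1).real (Set.Ici W)) - ε / 4) := by
    apply mul_le_mul_of_nonneg_left _ (by positivity)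
    linarith
  have m9 : (N : ℝ) / 24 * (1 / 2 * (1 - (gaussianReal 0 1).real (Set.Ici V)) - ε) =
      (N : ℝ) / 24 * (1 / 2 * (1 - (gaussianReal 0 1).real (Set.Ici V)) - ε / 2) -
        ε / 48 * N := by ring
  rw [m9]
  linarith

end Pool.Agent.KSL
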